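import Pool.Agent.helper55.VDI.SpecB1
import Pool.Agent.helper23.VD.EEA

/-!
# Project INF (MP_07c750_an), version B, row EEAB: copy of helper helper23, VD row EEA, for pairs of metrics
-/

set_option autoImplicit false

open scoped ContDiff Topology InnerProductSpace ComplexConjugate ENNReal
open MeasureTheory Filter Set

namespace Pool.Agent.VDI

open Pool.Agent.VD
open Pool.Agent.VQ (CH KZ PS perZ cmZ)
open Pool.Agent.RPQ (IsOp)
open Pool.Agent.VDA (STP FB FR FT nY OY OA)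
open Pool.Agent.VDE (FDX)

noncomputable section

theorem EEAB_proof (hEEH : EEH_stmt) (hEES : EESB_stmt) (hEYP : EYP_stmt) (hEE2 : EE2B_stmt) : EEAB_stmt := by
  intro d Γ _ _ K k B bn r0 χ hK hχ
  obtain ⟨CH, hCH, hEEH⟩ := hEEH d Γ K k B r0 hK
  obtain ⟨CS, hCS, hEES⟩ := hEES d Γ K k B bn r0 χ hK hχ
  obtain ⟨CE, hCE, hEE2⟩ := hEE2 d Γ K k B bn r0 χ hK hχ
  have hcnt : Countable Γ := EEA_cnt hK
  refine ⟨max CH (max CS CE), hCH.trans (le_max_left _ _), ?_⟩
  intro ch A h hch hA hinv hsm h01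
  obtain ⟨RH, -, hEEH⟩ := hEEH A (EAM0 hA hCH (le_max_left _ _))
  obtain ⟨N, RS, -, hEES⟩ := hEES ch A hch (EAM0 hA hCS ((le_max_left _ _).trans (le_max_right _ _)))
  obtain ⟨RE, -, hEE2⟩ := hEE2 ch A hch (EAM0 hA hCE ((le_max_right _ _).trans (le_max_right _ _)))
  obtain ⟨L1, hL1, hb1⟩ := EEA_bd h hsm 1 CH
  obtain ⟨L2, hL2, hb2⟩ := EEA_bd h hsm N N
  obtain ⟨Ra, hRa, ha⟩ := EEA_num L1 (1 / 3) (1 / 4) (by norm_num)
  obtain ⟨Rb, hRb, hb⟩ := EEA_num (1 + L2) (1 / 250) (1 / 300) (by norm_num)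
  refine ⟨max RH (max RS (max RE (max Ra Rb))), hRa.trans (le_trans (le_max_left Ra Rb) ((le_max_right _ _).trans ((le_max_right _ _).trans (le_max_right _ _)))), ?_⟩
  intro R F G Φ f u hR hF hO hu
  have r1 : RH ≤ R := (le_max_left _ _).trans hR
  have r2 : RS ≤ R := (le_max_left _ _).trans ((le_max_right _ _).trans hR)
  have r3 : RE ≤ R := (le_max_left _ _).trans ((le_max_right _ _).trans ((le_max_right _ _).trans hR))
  have r4 : Ra ≤ R := (le_max_left _ _).trans ((le_max_right _ _).trans ((le_max_right _ _).trans ((le_max_right _ _).trans hR)))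
  have r5 : Rb ≤ R := (le_max_right _ _).trans ((le_max_right _ _).trans ((le_max_right _ _).trans ((le_max_right _ _).trans hR)))
  have hfc : Continuous fun q : ℝ × P d => h (Φ q.1 q.2).1 := hsm.continuous.comp (continuous_fst.comp hO.flow.smooth.continuous)
  have hcs : ∀ p : P d, Continuous fun s : ℝ => h (Φ s p).1 := fun p => hfc.comp (continuous_id.prodMk continuous_const)
  have hgc : ∀ j : ℕ, Continuous fun p : P d => gE Φ h j p := by
    intro j
    have h1 : Continuous (Function.uncurry fun (p : P d) (s : ℝ) => h (Φ (s + j) p).1) :=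
      hfc.comp ((continuous_snd.add continuous_const).prodMk continuous_fst)
    exact intervalIntegral.continuous_parametric_intervalIntegral_of_continuous' h1 0 1
  have hm2 : Measurable fun y : YS Γ d => y.2 := by
    let _ : MeasurableSpace Γ := ⊤
    exact (measurable_snd : Measurable (Prod.snd : Γ × P d → P d))
  have habs : ∀ x, |h x| ≤ 1 := fun x => by
    rw [abs_of_nonneg (h01 x).1]
    exact (h01 x).2
  refine ⟨fun p => ?_, fun j => ⟨(hgc j).measurable.comp hm2, fun y => ?_, fun γ y => rfl⟩, fun j y y' hj hst => ?_, ?_⟩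
  · -- (1)
    have h1 : ∀ j : ℕ, gE Φ h j p = ∫ s in ((j : ℕ) : ℝ)..((j + 1 : ℕ) : ℝ), h (Φ s p).1 := by
      intro j
      unfold gE
      rw [intervalIntegral.integral_comp_add_right (fun s => h (Φ s p).1) (j : ℝ), zero_add]
      push_cast
      rw [add_comm (1 : ℝ)]
    rw [Finset.sum_congr rfl fun j _ => h1 j, intervalIntegral.sum_integral_adjacent_intervals (a := fun j : ℕ => (j : ℝ)) fun j _ => (hcs p).intervalIntegrable _ _]
    unfold avP
    rw [Nat.cast_zero]
    have h2 : A.tu R = ((A.n R + 1 : ℕ) : ℝ) := by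
      unfold Par.tu
      push_cast
      rfl
    rw [h2]
  · -- (2)
    have h1 := intervalIntegral.norm_integral_le_of_norm_le_const (a := (0 : ℝ)) (b := 1) (f := fun s : ℝ => h (Φ (s + j) y.2).1) (C := 1) fun s _ => habs _
    rw [sub_zero, abs_one, mul_one] at h1
    exact h1
  · -- (3)
    have h1 : ∀ s : ℝ, 0 ≤ s → s ≤ 1 → |h (Φ (s + ((j + 1 : ℕ) : ℝ)) y.2).1 - h (Φ (s + j) y'.2).1| ≤ L1 * R ^ (-(1 / 3) : ℝ) := by
      intro s hs0 hs1
      have h2 := hEEH R (s + j) L1 G Φ h y y' r1 hO hinv (hsm.of_le (by exact_mod_cast le_top)) hL1 (fun x hx => ?_) hst (by positivity) ?_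
      · have e1 : s + ((j + 1 : ℕ) : ℝ) = s + j + 1 := by
          push_cast
          ring
        rw [e1]
        exact h2
      · have h3 := hb1 1 le_rfl x hx
        rwa [norm_iteratedFDeriv_one] at h3
      · have h4 : (j : ℝ) ≤ A.n R := by exact_mod_cast Nat.lt_succ_iff.1 hj
        unfold Par.tu
        linarith
    have hi1 : IntervalIntegrable (fun s : ℝ => h (Φ (s + ((j + 1 : ℕ) : ℝ)) y.2).1) volume 0 1 := ((hcs y.2).comp (continuous_id.add continuous_const)).intervalIntegrable _ _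
    have hi2 : IntervalIntegrable (fun s : ℝ => h (Φ (s + j) y'.2).1) volume 0 1 := ((hcs y'.2).comp (continuous_id.add continuous_const)).intervalIntegrable _ _
    have h5 : gE Φ h (j + 1) y.2 - gE Φ h j y'.2 = ∫ s in (0 : ℝ)..1, (h (Φ (s + ((j + 1 : ℕ) : ℝ)) y.2).1 - h (Φ (s + j) y'.2).1) := by
      rw [intervalIntegral.integral_sub hi1 hi2]
      rfl
    rw [h5]
    have h6 := intervalIntegral.norm_integral_le_of_norm_le_const (a := (0 : ℝ)) (b := 1) (f := fun s : ℝ => h (Φ (s + ((j + 1 : ℕ) : ℝ)) y.2).1 - h (Φ (s + j) y'.2).1)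
      (C := L1 * R ^ (-(1 / 3) : ℝ)) fun s hs => by
        rw [uIoc_of_le zero_le_one] at hs
        exact h1 s hs.1.le hs.2
    rw [sub_zero, abs_one, mul_one] at h6
    exact h6.trans (ha R r4)
  · -- (4)
    obtain ⟨hFP, -⟩ := hEE2 R F G f u r3 hF hO.cls hu
    obtain ⟨-, hGW, -, -, -, hlin, hfin⟩ := hEYP d Γ G r0 2 R hO.cls.met
    obtain ⟨b, hb'⟩ := hFP.bdd
    have hν : IsFiniteMeasure ((mY Γ d).restrict (DT d {(1 : Γ)} ∩ GW Γ G r0 2 R)) := by
      refine ⟨?_⟩
      rw [Measure.restrict_apply_univ]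
      have h1 := hlin fun _ => 1
      rw [setLIntegral_one, setLIntegral_one] at h1
      rw [h1]
      exact hfin
    have hH : Measurable fun z : YS Γ d × ℝ => h (Φ (z.2 + ((0 : ℕ) : ℝ)) z.1.2).1 := by
      have h1 : Measurable fun z : YS Γ d × ℝ => (((z.2 + ((0 : ℕ) : ℝ)), z.1.2) : ℝ × P d) := (measurable_snd.add_const _).prodMk (hm2.comp measurable_fst)
      exact hfc.measurable.comp h1
    have h2 := EEA_fub ((mY Γ d).restrict (DT d {(1 : Γ)} ∩ GW Γ G r0 2 R)) (fun z : YS Γ d × ℝ => h (Φ (z.2 + ((0 : ℕ) : ℝ)) z.1.2).1) (fun y => ‖QF G χ ch A.z R u y‖ ^ 2)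
      (∫ z in F, h z * ‖u z‖ ^ 2 ∂mv G) ((1 + L2) * R ^ (-(1 / 250) : ℝ) * nn G F u) (b ^ 2) hH (fun z => habs _) (hFP.meas.norm.pow_const 2)
      (fun y => by
        rw [abs_of_nonneg (by positivity)]
        exact pow_le_pow_left₀ (norm_nonneg _) (hb' y) 2)
      (fun s hs0 hs1 => by
        have h3 := hEES R s L2 F G Φ f h u r2 hF hO hu hinv hsm h01 hL2 hb2 hs0 hs1
        have e1 : s + ((0 : ℕ) : ℝ) = s := by
          rw [Nat.cast_zero, add_zero]
        show |(∫ y in DT d {(1 : Γ)} ∩ GW Γ G r0 2 R, h (Φ (s + ((0 : ℕ) : ℝ)) y.2).1 * ‖QF G χ ch A.z R u y‖ ^ 2 ∂mY Γ d) - _| ≤ _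
        rw [e1]
        exact h3)
    refine le_trans h2 ?_
    have hnn : 0 ≤ nn G F u := integral_nonneg fun z => by positivity
    exact mul_le_mul_of_nonneg_right (hb R r5) hnn

end

end Pool.Agent.VDI
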