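import Pool.Agent.helper55.VDI.SpecB1
import Pool.Agent.helper49.VD.EES

/-!
# Project INF (MP_07c750_an), version B, row EESB: copy of helper helper49, VD row EES, for pairs of metrics
-/

set_option autoImplicit false

open scoped ContDiff Topology InnerProductSpace ComplexConjugate ENNReal
open MeasureTheory Filter Set

namespace Pool.Agent.VDI

open Pool.Agent.VD
open Pool.Agent.VQ (CH KZ PS perZ cmZ)
open Pool.Agent.RPQ (IsOp)
open Pool.Agent.VDA (STP FB FR FT nY OY OA)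
open Pool.Agent.VDE (FDX)

noncomputable section

theorem EESB_proof (hEET : EETB_stmt) (hEEF : EEF_stmt) (hEE2 : EE2B_stmt) (hASAD : ASAD_stmt) (hAFRD : AFRD_stmt) (hAFMD : AFMD_stmt)
    (hAMVI : AMVI_stmt) (hEYP : EYP_stmt) : EESB_stmt := by
  intro d Γ _ _ K k B bn r0 χ hFd hPU
  obtain ⟨CT, hCT, HT⟩ := hEET d Γ K k B bn r0 χ hFd hPU
  obtain ⟨CF, hCF, HF⟩ := hEEF d Γ K k B r0 χ hFd hPU
  obtain ⟨CW, hCW, HW⟩ := hEE2 d Γ K k B bn r0 χ hFd hPU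
  obtain ⟨CA, hCA, HA⟩ := hASAD d Γ K k B r0 χ hFd hPU
  obtain ⟨CM, hCM, HM⟩ := hAFMD d Γ K k B r0 χ hFd hPU
  obtain ⟨CR, hCR, HR⟩ := hAFRD d Γ K k B r0 hFd
  refine ⟨CT + CF + CW + CA + 4 * CM, by linarith, ?_⟩
  intro ch A hch hA
  have hAT : Adm CT A := EAM0 hA hCT (by linarith)
  have hAF : Adm CF A := EAM0 hA hCF (by linarith)
  have hAW : Adm CW A := EAM0 hA hCW (by linarith)
  have hAA : Adm CA A := EAM0 hA hCA (by linarith)
  have hAM : Adm (4 * CM) A := EAM0 hA (by linarith) (by linarith)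
  obtain ⟨z0, z01, hz1, z12, hz2, -, a2, -⟩ := EAM1 hAA hCA
  obtain ⟨-, -, -, -, -, -, m2, -⟩ := EAM1 hAM (by linarith)
  have hηA : CA * A.z1 ≤ 1 := by nlinarith
  have hη4 : CM * A.z1 ≤ 1 / 4 := by nlinarith
  have hη1' : CM * A.z1 ≤ 1 := by linarith
  have hη0 : 0 < CM * A.z1 := by positivity
  obtain ⟨R1, hR1, HT1⟩ := HT ch A hch hAT
  obtain ⟨N2, R2, hR2, HF1⟩ := HF ch A hch hAF
  obtain ⟨R3, hR3, HW1⟩ := HW ch A hch hAW
  obtain ⟨R4, hR4, HA1⟩ := HA ch A.z A.z1 hch z0 z01 hηA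
  obtain ⟨R5, hR5, HM1⟩ := HM ch 0 A.z A.z1 0 hch z0 z01 hη1'
  obtain ⟨R6, hR6, HN⟩ := EES_num2
  refine ⟨N2, max (max (max R1 R2) (max R3 R4)) (max (max R5 R6) CR),
    hR1.trans ((le_max_left _ _).trans ((le_max_left _ _).trans (le_max_left _ _))), ?_⟩
  intro R s L F G Φ f h u hR hFD hOK hAp hinv hsm hh1 hL hder hs0 hs
  have k1 : R1 ≤ R := (le_max_left _ _).trans ((le_max_left _ _).trans ((le_max_left _ _).trans hR))
  have k2 : R2 ≤ R := (le_max_right _ _).trans ((le_max_left _ _).trans ((le_max_left _ _).trans hR))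
  have k3 : R3 ≤ R := (le_max_left _ _).trans ((le_max_right _ _).trans ((le_max_left _ _).trans hR))
  have k4 : R4 ≤ R := (le_max_right _ _).trans ((le_max_right _ _).trans ((le_max_left _ _).trans hR))
  have k5 : R5 ≤ R := (le_max_left _ _).trans ((le_max_left _ _).trans ((le_max_right _ _).trans hR))
  have k6 : R6 ≤ R := (le_max_right _ _).trans ((le_max_left _ _).trans ((le_max_right _ _).trans hR))
  have k7 : CR ≤ R := (le_max_right _ _).trans ((le_max_right _ _).trans hR)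
  have hR1' : 1 ≤ R := hR6.trans k6
  have hR0 : 0 < R := by linarith
  obtain ⟨n1, n2, n3, n4, n5, n6⟩ := HN R k6
  have hDm : Dm (⊤ : Subgroup Γ) F {(1 : Γ)} := Or.inl ⟨rfl, hFD, rfl⟩
  have hFH : FH (⊤ : Subgroup Γ) F u := hAp.fh
  obtain ⟨w1, -, w3, w4, w5⟩ := HW1 R F G f u k3 hFD hOK.cls hAp
  have hs' : |s| ≤ 1 := by
    rw [abs_of_nonneg hs0]
    exact hs
  have hfam := (HM1 R s G Φ k5 hOK hs').1
  obtain ⟨-, -, r⟩ := HR 0 (CM * A.z1) (R ^ (3 * (d : ℝ) / 4 + CM * A.z1)) R s G Φ (fP G Φ χ ch A.z A.z1 R s) k7 hOK hη0 hη4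
    (Real.rpow_nonneg hR0.le _) hs' hfam
  obtain ⟨r4, r5, r6⟩ := r (⊤ : Subgroup Γ) F {(1 : Γ)} hDm
  have hhφ : FH (⊤ : Subgroup Γ) F (fun z => ((h z : ℝ) : ℂ) * u z) := by
    refine ⟨(Complex.continuous_ofReal.comp hsm.continuous).mul hFH.cont, fun γ hγ z => ?_, ?_⟩
    · show ((h (γ • z) : ℝ) : ℂ) * u (γ • z) = _
      rw [hinv γ z, hFH.inv γ hγ z]
    · obtain ⟨b, hb⟩ := hFH.supp
      refine ⟨b, fun z hz h0 => hb z hz (fun h1 => h0 ?_)⟩
      show ((h z : ℝ) : ℂ) * u z = 0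
      rw [h1, mul_zero]
  have hP : FP (⊤ : Subgroup Γ) {(1 : Γ)} (aF G r0 R (fP G Φ χ ch A.z A.z1 R s) u) := r5 u hFH
  have hPh : FP (⊤ : Subgroup Γ) {(1 : Γ)} (aF G r0 R (fP G Φ χ ch A.z A.z1 R s) (fun z => ((h z : ℝ) : ℂ) * u z)) := r5 _ hhφ
  have hψ : FH (⊤ : Subgroup Γ) F (sF G r0 R (fP G Φ χ ch A.z A.z1 R s) (aF G r0 R (fP G Φ χ ch A.z A.z1 R s) u)) := r4 _ hP
  have dual1 := r6 u _ hFH hP
  have dual2 := r6 _ _ hhφ hP
  have eT := HT1 R s F G Φ f u k1 hFD hOK hAp hs0 hs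
  have eF := HF1 R s L F G Φ u h k2 hFD hOK hFH hinv hsm hL hder hs0 hs
  obtain ⟨a1, a2⟩ := HA1 R s G Φ k4 hOK hs0 hs (⊤ : Subgroup Γ) F {(1 : Γ)} hDm
  have a1' := a1 _ hP
  have a2' := a2 u hFH
  have mθ : Measurable (fun y : YS Γ d => thP Φ f R s y.2) := EES_meas (EES_th hOK.flow hAp.sm.smooth.continuous R s).measurable
  have mη : Measurable (fun y : YS Γ d => h (Φ s y.2).1) := by
    have h2 := hOK.flow.smooth.continuous
    have h3 : Continuous (fun p : P d => Φ s p) := h2.comp (continuous_const.prodMk continuous_id)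
    exact EES_meas (g := fun p : P d => h (Φ s p).1) (hsm.continuous.comp h3.fst).measurable
  -- finite measures
  obtain ⟨hcount, -, -, -, hcpt, -⟩ := hAMVI d Γ K k B G hFd hOK.cls
  haveI : Countable Γ := hcount
  obtain ⟨-, -, -, -, -, hyp, hvol⟩ := hEYP d Γ G r0 2 R hOK.cls.met
  have hfin : mY Γ d (DT d {(1 : Γ)} ∩ GW Γ G r0 2 R) < ⊤ := by
    have h1 := hyp (fun _ => 1)
    simp only [lintegral_const, Measure.restrict_apply_univ, one_mul] at h1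
    rw [h1]
    exact hvol
  set W : Set (YS Γ d) := DT d {(1 : Γ)} ∩ GW Γ G r0 2 R with hWdef
  haveI : IsFiniteMeasure ((mY Γ d).restrict W) := ⟨by rw [Measure.restrict_apply_univ]; exact hfin⟩
  have fp : ∀ {v : YS Γ d → ℂ}, FP (⊤ : Subgroup Γ) {(1 : Γ)} v → Integrable (fun y => ‖v y‖ ^ 2) ((mY Γ d).restrict W) := by
    intro v hv
    obtain ⟨b, hb⟩ := hv.bdd
    refine Integrable.mono' (integrable_const (b ^ 2)) (hv.meas.norm.pow_const 2).aestronglyMeasurable (Eventually.of_forall fun y => ?_)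
    rw [norm_pow, norm_norm]
    exact pow_le_pow_left₀ (norm_nonneg _) (hb y) 2
  have hF : MeasurableSet F := hFD.meas
  haveI : IsFiniteMeasureOnCompacts (mv G) := ⟨fun {S} hS => hcpt S hS⟩
  have fF : ∀ {φ : V d → ℂ}, Continuous φ → Integrable (fun z => ‖φ z‖ ^ 2) ((mv G).restrict F) := by
    intro φ hφ
    obtain ⟨b, hb⟩ := hFD.bdd
    have h1 : IntegrableOn (fun z => ‖φ z‖ ^ 2) (Metric.closedBall 0 b) (mv G) :=
      (hφ.norm.pow 2).continuousOn.integrableOn_compact (isCompact_closedBall _ _)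
    exact h1.mono_set fun z hz => mem_closedBall_zero_iff.2 (hb z hz)
  -- short names
  set P : YS Γ d → ℂ := aF G r0 R (fP G Φ χ ch A.z A.z1 R s) u with hPdef
  set Ph : YS Γ d → ℂ := aF G r0 R (fP G Φ χ ch A.z A.z1 R s) (fun z => ((h z : ℝ) : ℂ) * u z) with hPhdef
  set ψ : V d → ℂ := sF G r0 R (fP G Φ χ ch A.z A.z1 R s) P with hψdef
  set Q : YS Γ d → ℂ := QF G χ ch A.z R u with hQdef
  set b : YS Γ d → ℂ := fun p => Complex.exp (((thP Φ f R s p.2 : ℝ) : ℂ) * Complex.I) * Q p with hbdef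
  set η : YS Γ d → ℝ := fun p => h (Φ s p.2).1 with hηdef
  set N : ℝ := nn G F u with hN
  have hN0 : 0 ≤ N := integral_nonneg (fun z => by positivity)
  have nb : ∀ p, ‖b p‖ = ‖Q p‖ := by
    intro p
    rw [hbdef]
    show ‖Complex.exp (((thP Φ f R s p.2 : ℝ) : ℂ) * Complex.I) * Q p‖ = _
    rw [norm_mul, Complex.norm_exp_ofReal_mul_I, one_mul]
  have mb : Measurable b :=
    (Complex.measurable_exp.comp ((Complex.measurable_ofReal.comp mθ).mul_const _)).mul w1.meas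
  have iP : Integrable (fun p => ‖P p‖ ^ 2) ((mY Γ d).restrict W) := fp hP
  have iPh : Integrable (fun p => ‖Ph p‖ ^ 2) ((mY Γ d).restrict W) := fp hPh
  have iQ : Integrable (fun p => ‖Q p‖ ^ 2) ((mY Γ d).restrict W) := fp w1
  have ib : Integrable (fun p => ‖b p‖ ^ 2) ((mY Γ d).restrict W) := by
    simp only [nb]
    exact iQ
  have hη1 : ∀ p, 0 ≤ η p ∧ η p ≤ 1 := fun p => hh1 _
  have mηP : Measurable (fun p => ((η p : ℝ) : ℂ) * P p) := (Complex.measurable_ofReal.comp mη).mul hP.meas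
  have iηP : Integrable (fun p => ‖((η p : ℝ) : ℂ) * P p‖ ^ 2) ((mY Γ d).restrict W) := by
    refine Integrable.mono' iP (mηP.norm.pow_const 2).aestronglyMeasurable (Eventually.of_forall fun p => ?_)
    rw [Real.norm_of_nonneg (by positivity), norm_mul, Complex.norm_real, Real.norm_of_nonneg (hη1 p).1, mul_pow]
    exact mul_le_of_le_one_left (by positivity) (pow_le_one₀ (hη1 p).1 (hη1 p).2)
  -- the numbers
  have rP : nP G r0 {(1 : Γ)} 2 R P = ∫ p, ‖P p‖ ^ 2 ∂((mY Γ d).restrict W) := rfl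
  have rQ : nP G r0 {(1 : Γ)} 2 R Q = ∫ p, ‖Q p‖ ^ 2 ∂((mY Γ d).restrict W) := rfl
  set x : ℝ := Real.sqrt (nP G r0 {(1 : Γ)} 2 R P) with hx
  set y : ℝ := Real.sqrt (nP G r0 {(1 : Γ)} 2 R Q) with hy
  set n : ℝ := Real.sqrt N with hn
  have hnP : 0 ≤ nP G r0 {(1 : Γ)} 2 R P := integral_nonneg (fun z => by positivity)
  have hnQ : 0 ≤ nP G r0 {(1 : Γ)} 2 R Q := integral_nonneg (fun z => by positivity)
  have hn0 : 0 ≤ n := Real.sqrt_nonneg _
  have hx0 : 0 ≤ x := Real.sqrt_nonneg _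
  have hy0 : 0 ≤ y := Real.sqrt_nonneg _
  have hn2 : n ^ 2 = N := Real.sq_sqrt hN0
  have hx2 : x ^ 2 = nP G r0 {(1 : Γ)} 2 R P := Real.sq_sqrt hnP
  have hy2 : y ^ 2 = nP G r0 {(1 : Γ)} 2 R Q := Real.sq_sqrt hnQ
  have hδ0 : 0 ≤ R ^ (-(1 / 5) : ℝ) := Real.rpow_nonneg hR0.le _
  have hδ1 : 0 ≤ R ^ (-(9 / 40) : ℝ) := Real.rpow_nonneg hR0.le _
  have he0 : 0 ≤ R ^ (-(1 / 120) : ℝ) := Real.rpow_nonneg hR0.le _
  have hxn : x ≤ (1 + R ^ (-(1 / 5) : ℝ)) * n := by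
    have h1 := Real.sqrt_le_sqrt a2'
    rw [Real.sqrt_mul (sq_nonneg _), Real.sqrt_sq (by positivity)] at h1
    exact h1.trans (mul_le_mul_of_nonneg_right (by linarith) hn0)
  have hx2n : x ≤ 2 * n := hxn.trans (mul_le_mul_of_nonneg_right (by linarith) hn0)
  have hyn : y ≤ 2 * n := by
    rw [hy]
    refine Real.sqrt_le_iff.2 ⟨by positivity, ?_⟩
    rw [mul_pow, hn2]
    refine w3.trans (mul_le_mul_of_nonneg_right ?_ hN0)
    norm_num
    linarith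
  have sT : Real.sqrt (∫ p, ‖P p - b p‖ ^ 2 ∂((mY Γ d).restrict W)) ≤ R ^ (-(1 / 120) : ℝ) * n := by
    have e1 := Real.sqrt_le_sqrt eT
    have e2 := EES_sqrt (R := R) (a := -(1 / 120)) (L := 1) (N := N) hR0 zero_le_one
    rw [one_pow, one_mul, one_mul] at e2
    have e3 : (2 : ℝ) * (-(1 / 120)) = -(1 / 60) := by norm_num
    rw [e3] at e2
    rw [e2] at e1
    exact e1
  have sF' : Real.sqrt (∫ p, ‖Ph p - ((η p : ℝ) : ℂ) * P p‖ ^ 2 ∂((mY Γ d).restrict W)) ≤ L * R ^ (-(9 / 20) : ℝ) * n := by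
    have e1 := Real.sqrt_le_sqrt eF
    have e2 := EES_sqrt (R := R) (a := -(9 / 20)) (L := L) (N := N) hR0 hL
    have e3 : (2 : ℝ) * (-(9 / 20)) = -(9 / 10) := by norm_num
    rw [e3] at e2
    rw [e2] at e1
    exact e1
  have hyx : y ≤ x + R ^ (-(1 / 120) : ℝ) * n := by
    have e1 := EES_mink ((mY Γ d).restrict W) hP.meas.aestronglyMeasurable mb.aestronglyMeasurable iP ib
    simp only [nb] at e1
    rw [← rP, ← rQ, ← hx, ← hy] at e1
    linarith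
  -- first step
  have s1 : |(∫ p, η p * ‖Q p‖ ^ 2 ∂((mY Γ d).restrict W)) - ∫ p, η p * ‖P p‖ ^ 2 ∂((mY Γ d).restrict W)| ≤ 4 * R ^ (-(1 / 120) : ℝ) * N := by
    have e1 := EES_eta ((mY Γ d).restrict W) hP.meas.aestronglyMeasurable mb.aestronglyMeasurable iP ib mη.aestronglyMeasurable hη1
    simp only [nb] at e1
    rw [← rP, ← rQ, ← hx, ← hy] at e1
    rw [abs_sub_comm]
    calc _ ≤ _ := e1
      _ ≤ (R ^ (-(1 / 120) : ℝ) * n) * (4 * n) := mul_le_mul sT (by linarith) (by positivity) (by positivity)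
      _ = 4 * R ^ (-(1 / 120) : ℝ) * N := by rw [← hn2]; ring
  -- second step
  have s2 : ‖(∫ p, Ph p * conj (P p) ∂((mY Γ d).restrict W)) - ((∫ p, η p * ‖P p‖ ^ 2 ∂((mY Γ d).restrict W) : ℝ) : ℂ)‖ ≤
      2 * L * R ^ (-(9 / 20) : ℝ) * N := by
    have e1 : ((∫ p, η p * ‖P p‖ ^ 2 ∂((mY Γ d).restrict W) : ℝ) : ℂ) = ∫ p, (((η p : ℝ) : ℂ) * P p) * conj (P p) ∂((mY Γ d).restrict W) := by
      rw [← integral_complex_ofReal]
      congr 1
      funext p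
      rw [mul_assoc, Complex.mul_conj, Complex.normSq_eq_norm_sq]
      push_cast
      ring
    have j1 := EES_mulC ((mY Γ d).restrict W) hPh.meas.aestronglyMeasurable hP.meas.aestronglyMeasurable iPh iP
    have j2 := EES_mulC ((mY Γ d).restrict W) mηP.aestronglyMeasurable hP.meas.aestronglyMeasurable iηP iP
    rw [e1, ← integral_sub j1 j2]
    have e2 : (fun p => Ph p * conj (P p) - (((η p : ℝ) : ℂ) * P p) * conj (P p)) =
        fun p => (Ph p - ((η p : ℝ) : ℂ) * P p) * conj (P p) := by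
      funext p
      ring
    rw [e2]
    have e3 := EES_cs ((mY Γ d).restrict W) (f := fun p => Ph p - ((η p : ℝ) : ℂ) * P p)
      (hPh.meas.sub mηP).aestronglyMeasurable hP.meas.aestronglyMeasurable
      (EES_sub ((mY Γ d).restrict W) hPh.meas.aestronglyMeasurable mηP.aestronglyMeasurable iPh iηP) iP
    refine e3.trans ?_
    rw [← rP, ← hx]
    calc _ ≤ (L * R ^ (-(9 / 20) : ℝ) * n) * (2 * n) := mul_le_mul sF' hx2n hx0 (by positivity)
      _ = 2 * L * R ^ (-(9 / 20) : ℝ) * N := by rw [← hn2]; ring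
  -- third step
  have hPP : ∫ z, u z * conj (ψ z) ∂((mv G).restrict F) = ((nP G r0 {(1 : Γ)} 2 R P : ℝ) : ℂ) := by
    rw [hψdef, ← dual1, nP, ← integral_complex_ofReal]
    congr 1
    funext z
    rw [Complex.mul_conj, Complex.normSq_eq_norm_sq]
  have mu := hFH.cont.aestronglyMeasurable (μ := (mv G).restrict F)
  have mψ := hψ.cont.aestronglyMeasurable (μ := (mv G).restrict F)
  have mh := hhφ.cont.aestronglyMeasurable (μ := (mv G).restrict F)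
  have i2 := fF hFH.cont
  have i1 := fF hψ.cont
  have i0 := fF hhφ.cont
  have hZ := EES_dist ((mv G).restrict F) mu mψ i2 i1 hPP
  have s4 : ∫ z, ‖u z - ψ z‖ ^ 2 ∂((mv G).restrict F) ≤ 16 * R ^ (-(1 / 120) : ℝ) * n ^ 2 := by
    refine EES_num1 (n := n) (x := x) (y := y) (δ := R ^ (-(1 / 5) : ℝ)) (e := R ^ (-(1 / 120) : ℝ)) (nψ := nn G F ψ) hn0 hx0 hy0 hδ0 n2 n1
      ?_ hyx hxn ?_ ?_
    · rw [hn2, hy2]
      exact w4.trans w5
    · rw [hZ, hx2, hn2]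
      rfl
    · rw [hx2]
      refine a1'.trans (mul_le_mul_of_nonneg_right ?_ hnP)
      exact pow_le_pow_left₀ (by linarith) (by linarith) 2
  have s5 : Real.sqrt (∫ z, ‖u z - ψ z‖ ^ 2 ∂((mv G).restrict F)) ≤ 4 * R ^ (-(1 / 240) : ℝ) * n := by
    have e1 := Real.sqrt_le_sqrt s4
    have e2 := EES_sqrt (R := R) (a := -(1 / 240)) (L := 4) (N := n ^ 2) hR0 (by norm_num)
    have e3 : (2 : ℝ) * (-(1 / 240)) = -(1 / 120) := by norm_num
    rw [e3, Real.sqrt_sq hn0] at e2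
    norm_num at e2
    rw [e2] at e1
    exact e1
  have s6 : ‖(∫ z, (((h z : ℝ) : ℂ) * u z) * conj (ψ z) ∂((mv G).restrict F)) - ((∫ z, h z * ‖u z‖ ^ 2 ∂((mv G).restrict F) : ℝ) : ℂ)‖ ≤
      4 * R ^ (-(1 / 240) : ℝ) * N := by
    have e1 : ((∫ z, h z * ‖u z‖ ^ 2 ∂((mv G).restrict F) : ℝ) : ℂ) = ∫ z, (((h z : ℝ) : ℂ) * u z) * conj (u z) ∂((mv G).restrict F) := by
      rw [← integral_complex_ofReal]
      congr 1
      funext p
      rw [mul_assoc, Complex.mul_conj, Complex.normSq_eq_norm_sq]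
      push_cast
      ring
    have j1 := EES_mulC ((mv G).restrict F) mh mψ i0 i1
    have j2 := EES_mulC ((mv G).restrict F) mh mu i0 i2
    rw [e1, norm_sub_rev, ← integral_sub j2 j1]
    have e2 : (fun z => ((h z : ℝ) : ℂ) * u z * conj (u z) - ((h z : ℝ) : ℂ) * u z * conj (ψ z)) =
        fun z => (((h z : ℝ) : ℂ) * u z) * conj (u z - ψ z) := by
      funext z
      rw [map_sub]
      ring
    rw [e2]
    have e3 := EES_cs ((mv G).restrict F) (f := fun z => ((h z : ℝ) : ℂ) * u z) (g := fun z => u z - ψ z)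
      mh (mu.sub mψ) i0 (EES_sub ((mv G).restrict F) mu mψ i2 i1)
    refine e3.trans ?_
    have e4 : Real.sqrt (∫ z, ‖((h z : ℝ) : ℂ) * u z‖ ^ 2 ∂((mv G).restrict F)) ≤ n := by
      refine Real.sqrt_le_sqrt (integral_mono i0 i2 fun z => ?_)
      show ‖((h z : ℝ) : ℂ) * u z‖ ^ 2 ≤ ‖u z‖ ^ 2
      rw [norm_mul, Complex.norm_real, Real.norm_of_nonneg (hh1 z).1, mul_pow]
      exact mul_le_of_le_one_left (by positivity) (pow_le_one₀ (hh1 z).1 (hh1 z).2)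
    calc _ ≤ n * (4 * R ^ (-(1 / 240) : ℝ) * n) := mul_le_mul e4 s5 (Real.sqrt_nonneg _) hn0
      _ = 4 * R ^ (-(1 / 240) : ℝ) * N := by rw [← hn2]; ring
  -- conclusion
  rw [← dual2] at s6
  have s7 : |(∫ p, η p * ‖P p‖ ^ 2 ∂((mY Γ d).restrict W)) - ∫ z, h z * ‖u z‖ ^ 2 ∂((mv G).restrict F)| ≤
      2 * L * R ^ (-(9 / 20) : ℝ) * N + 4 * R ^ (-(1 / 240) : ℝ) * N := by
    have e1 : ((((∫ p, η p * ‖P p‖ ^ 2 ∂((mY Γ d).restrict W)) - ∫ z, h z * ‖u z‖ ^ 2 ∂((mv G).restrict F) : ℝ) : ℝ) : ℂ) =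
        ((∫ p, Ph p * conj (P p) ∂((mY Γ d).restrict W)) - ((∫ z, h z * ‖u z‖ ^ 2 ∂((mv G).restrict F) : ℝ) : ℂ)) -
        ((∫ p, Ph p * conj (P p) ∂((mY Γ d).restrict W)) - ((∫ p, η p * ‖P p‖ ^ 2 ∂((mY Γ d).restrict W) : ℝ) : ℂ)) := by
      rw [Complex.ofReal_sub]
      ring
    rw [← Real.norm_eq_abs, ← Complex.norm_real, e1]
    refine (norm_sub_le _ _).trans ?_
    linarith
  have s8 := abs_sub_le (∫ p, η p * ‖Q p‖ ^ 2 ∂((mY Γ d).restrict W)) (∫ p, η p * ‖P p‖ ^ 2 ∂((mY Γ d).restrict W)) (∫ z, h z * ‖u z‖ ^ 2 ∂((mv G).restrict F))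
  have hr : 0 ≤ R ^ (-(1 / 240) : ℝ) := Real.rpow_nonneg hR0.le _
  have s9 : 4 * R ^ (-(1 / 120) : ℝ) + 2 * L * R ^ (-(9 / 20) : ℝ) + 4 * R ^ (-(1 / 240) : ℝ) ≤ (1 + L) * R ^ (-(1 / 250) : ℝ) := by
    have e1 : L * R ^ (-(9 / 20) : ℝ) ≤ L * R ^ (-(1 / 240) : ℝ) := mul_le_mul_of_nonneg_left n5 hL
    have e2 : L * (8 * R ^ (-(1 / 240) : ℝ)) ≤ L * R ^ (-(1 / 250) : ℝ) := mul_le_mul_of_nonneg_left n3 hL
    have e3 : 0 ≤ L * R ^ (-(1 / 240) : ℝ) := mul_nonneg hL hr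
    rw [add_mul, one_mul]
    linarith
  have s10 := mul_le_mul_of_nonneg_right s9 hN0
  refine (s8.trans (add_le_add s1 s7)).trans ?_
  refine le_trans (le_of_eq ?_) s10
  ring

end

end Pool.Agent.VDI
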