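import Pool.Agent.helper55.VDI.SpecB1
import Pool.Agent.helper98.VD.EF8

/-!
# Project INF (MP_07c750_an), version B, row EF8B: copy of helper helper98, VD row EF8, for pairs of metrics
-/

set_option autoImplicit false

open scoped ContDiff Topology InnerProductSpace ComplexConjugate ENNReal
open MeasureTheory Filter Set

namespace Pool.Agent.VDI

open Pool.Agent.VD
open Pool.Agent.VQ (CH KZ PS perZ cmZ)
open Pool.Agent.RPQ (IsOp)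
open Pool.Agent.VDA (STP FB FR FT nY OY OA)
open Pool.Agent.VDE (FDX)

noncomputable section

theorem EF8B_proof (hCTD : CTD_stmt) (hLEN : LEN_stmt) (hEST : EST_stmt) (hEAT : VDA.EAT_stmt) (hEEA : EEAB_stmt) (hEO1 : EO1B_stmt) (hEE2 : EE2B_stmt)
    (hEEY : EEY_stmt) (hAUMD : AUMD_stmt) : EF8B_stmt := by
  intro d Γ _ _ K k B bn r0 χ hK hPU
  obtain ⟨C1, hC1, h1⟩ := hEST d Γ K k B r0 χ hK hPU
  obtain ⟨C2, hC2, h2⟩ := hEEA d Γ K k B bn r0 χ hK hPU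
  obtain ⟨C3, hC3, h3⟩ := hEO1 d Γ K k B bn r0 χ hK hPU
  obtain ⟨C4, hC4, h4⟩ := hEE2 d Γ K k B bn r0 χ hK hPU
  obtain ⟨C5, hC5, h5⟩ := hEEY d Γ K k B r0 hK
  obtain ⟨C6, hC6, h6⟩ := hAUMD d Γ K k B r0 χ hK hPU
  have hcnt : Countable Γ := hCTD d Γ K hK
  obtain ⟨L, hL1, hL2, hL3, hL4⟩ := hLEN Γ hcnt
  have hLF : LF L := ⟨hL1, hL2, hL3, hL4⟩
  have m12 : C1 ≤ max (max (max C1 C2) (max C3 C4)) (max C5 C6) := (le_max_left _ _).trans ((le_max_left _ _).trans (le_max_left _ _))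
  have m2 : C2 ≤ max (max (max C1 C2) (max C3 C4)) (max C5 C6) := (le_max_right _ _).trans ((le_max_left _ _).trans (le_max_left _ _))
  have m3 : C3 ≤ max (max (max C1 C2) (max C3 C4)) (max C5 C6) := (le_max_left _ _).trans ((le_max_right _ _).trans (le_max_left _ _))
  have m4 : C4 ≤ max (max (max C1 C2) (max C3 C4)) (max C5 C6) := (le_max_right _ _).trans ((le_max_right _ _).trans (le_max_left _ _))
  have m5 : C5 ≤ max (max (max C1 C2) (max C3 C4)) (max C5 C6) := (le_max_left _ _).trans (le_max_right _ _)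
  have m6 : C6 ≤ max (max (max C1 C2) (max C3 C4)) (max C5 C6) := (le_max_right _ _).trans (le_max_right _ _)
  refine ⟨max (max (max C1 C2) (max C3 C4)) (max C5 C6), hC1.trans m12, ?_⟩
  intro ch A h hch hA hhi hhs hhb
  obtain ⟨R1, hR1, g1⟩ := h1 ch A hch (EAM0 hA hC1 m12)
  obtain ⟨R2, hR2, g2⟩ := h2 ch A h hch (EAM0 hA hC2 m2) hhi hhs hhb
  obtain ⟨R3, hR3, g3⟩ := h3 ch A hch (EAM0 hA hC3 m3)
  obtain ⟨R4, hR4, g4⟩ := h4 ch A hch (EAM0 hA hC4 m4)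
  obtain ⟨R5, hR5, g5⟩ := h5 A (EAM0 hA hC5 m5)
  obtain ⟨R6, hR6, g6⟩ := h6 ch A hch (EAM0 hA hC6 m6)
  obtain ⟨R7, hR7, g7⟩ := EF8_large
  have he2 : A.e2 ≤ 1 := by
    have a1 := (EAM0 hA hC1 m12).e2'
    have a2 := hA.e2
    nlinarith
  have n1 : R1 ≤ max (max (max R1 R2) (max R3 R4)) (max (max R5 R6) R7) := (le_max_left _ _).trans ((le_max_left _ _).trans (le_max_left _ _))
  have n2 : R2 ≤ max (max (max R1 R2) (max R3 R4)) (max (max R5 R6) R7) := (le_max_right _ _).trans ((le_max_left _ _).trans (le_max_left _ _))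
  have n3 : R3 ≤ max (max (max R1 R2) (max R3 R4)) (max (max R5 R6) R7) := (le_max_left _ _).trans ((le_max_right _ _).trans (le_max_left _ _))
  have n4 : R4 ≤ max (max (max R1 R2) (max R3 R4)) (max (max R5 R6) R7) := (le_max_right _ _).trans ((le_max_right _ _).trans (le_max_left _ _))
  have n5 : R5 ≤ max (max (max R1 R2) (max R3 R4)) (max (max R5 R6) R7) := (le_max_left _ _).trans ((le_max_left _ _).trans (le_max_right _ _))
  have n6 : R6 ≤ max (max (max R1 R2) (max R3 R4)) (max (max R5 R6) R7) := (le_max_right _ _).trans ((le_max_left _ _).trans (le_max_right _ _))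
  have n7 : R7 ≤ max (max (max R1 R2) (max R3 R4)) (max (max R5 R6) R7) := (le_max_right _ _).trans (le_max_right _ _)
  refine ⟨max (max (max R1 R2) (max R3 R4)) (max (max R5 R6) R7), hR1.trans n1, ?_⟩
  intro R F G Φ f u hR hF hO hAp
  obtain ⟨l1, l2, l3⟩ := g7 R (n7.trans hR)
  have hR2' : (2 : ℝ) ≤ R := hR7.trans (n7.trans hR)
  have hR0 : (0 : ℝ) < R := by linarith
  have hRge : (1 : ℝ) ≤ R := by linarith
  obtain ⟨p1, p2, -, -, p5, p6, p7⟩ := g1 R F G Φ L (n1.trans hR) hF hO hLF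
  obtain ⟨q1, q2, q3, q4⟩ := g2 R F G Φ f u (n2.trans hR) hF hO hAp
  have r1 := g3 R F G Φ f u (n3.trans hR) hF hO hAp
  obtain ⟨s1, -, s3, s4, s5⟩ := g4 R F G f u (n4.trans hR) hF hO.cls hAp
  obtain ⟨-, t2, -⟩ := g5 R G Φ f (n5.trans hR) hO hAp.sm
  obtain ⟨-, -, v3, -⟩ := g6 R G Φ (n6.trans hR) hO
  have hnn : 0 ≤ nn G F u := integral_nonneg (fun z => by positivity)
  have hFB : FB Γ (QF (Γ := Γ) G χ ch A.z R u) := (p7 _).2 s1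
  have hnY := p6 (QF (Γ := Γ) G χ ch A.z R u)
  have hY1 : nY (mW Γ G r0 R) (DT d {(1 : Γ)}) (QF (Γ := Γ) G χ ch A.z R u) ≤ 2 * nn G F u := by
    rw [hnY]
    refine s3.trans ?_
    have : 1 + R ^ (-(1 / 5) : ℝ) ≤ 2 := by linarith
    exact mul_le_mul_of_nonneg_right this hnn
  have hY2 : nn G F u ≤ 2 * nY (mW Γ G r0 R) (DT d {(1 : Γ)}) (QF (Γ := Γ) G χ ch A.z R u) := by
    rw [hnY]
    have a1 : 1 / 2 * nn G F u ≤ (1 - R ^ (-(1 / 5) : ℝ)) * nn G F u := mul_le_mul_of_nonneg_right (by linarith) hnn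
    have a2 := (a1.trans s4).trans s5
    linarith
  have hFT : FT Γ (fun y : YS Γ d => thP Φ f R 1 y.2) := ⟨t2 1, fun γ y => rfl⟩
  have hOY : (fun y : YS Γ d => OY (mW Γ G r0 R) (us G Φ r0 χ ch A R) (QF (Γ := Γ) G χ ch A.z R u) y -
      Complex.exp (((thP Φ f R 1 y.2 : ℝ) : ℂ) * Complex.I) * QF (Γ := Γ) G χ ch A.z R u y) = (fun y : YS Γ d => Op (us G Φ r0 χ ch A R) (QF (Γ := Γ) G χ ch A.z R u) y -
      Complex.exp (((thP Φ f R 1 y.2 : ℝ) : ℂ) * Complex.I) * QF (Γ := Γ) G χ ch A.z R u y) := by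
    funext y
    rw [p5 (us G Φ r0 χ ch A R) (QF (Γ := Γ) G χ ch A.z R u) y (fun y y' hy => (v3 y y' hy).1.2.1)]
  have hδ : (R ^ (-(1 / 150) : ℝ)) ^ 2 = R ^ (-(1 / 75) : ℝ) := by
    rw [← Real.rpow_natCast, ← Real.rpow_mul hR0.le]
    norm_num
  have hone : nY (mW Γ G r0 R) (DT d {(1 : Γ)}) (fun y : YS Γ d => OY (mW Γ G r0 R) (us G Φ r0 χ ch A R) (QF (Γ := Γ) G χ ch A.z R u) y -
      Complex.exp (((thP Φ f R 1 y.2 : ℝ) : ℂ) * Complex.I) * QF (Γ := Γ) G χ ch A.z R u y) ≤ (R ^ (-(1 / 150) : ℝ)) ^ 2 * nY (mW Γ G r0 R) (DT d {(1 : Γ)}) (QF (Γ := Γ) G χ ch A.z R u) := by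
    rw [hOY, p6, hδ]
    refine r1.trans ?_
    have a1 : 2 * R ^ (-(1 / 70) : ℝ) ≤ R ^ (-(1 / 75) : ℝ) := by
      have a2 : R ^ (-(1 / 75) : ℝ) = R ^ (1 / 1050 : ℝ) * R ^ (-(1 / 70) : ℝ) := by
        rw [← Real.rpow_add hR0]
        norm_num
      rw [a2]
      exact mul_le_mul_of_nonneg_right l2 (Real.rpow_nonneg hR0.le _)
    have a3 : 0 ≤ nY (mW Γ G r0 R) (DT d {(1 : Γ)}) (QF (Γ := Γ) G χ ch A.z R u) := by linarith
    calc R ^ (-(1 / 70) : ℝ) * nn G F u ≤ R ^ (-(1 / 70) : ℝ) * (2 * nY (mW Γ G r0 R) (DT d {(1 : Γ)}) (QF (Γ := Γ) G χ ch A.z R u)) :=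
          mul_le_mul_of_nonneg_left hY2 (Real.rpow_nonneg hR0.le _)
      _ = (2 * R ^ (-(1 / 70) : ℝ)) * nY (mW Γ G r0 R) (DT d {(1 : Γ)}) (QF (Γ := Γ) G χ ch A.z R u) := by ring
      _ ≤ _ := mul_le_mul_of_nonneg_right a1 a3
  have hE := (hEAT Γ (YS Γ d) (mW Γ G r0 R) (DT d {(1 : Γ)}) (dYS L) p1 (us G Φ r0 χ ch A R) (R ^ (-(1 / 5) : ℝ)) (R ^ (1 / 200 : ℝ)) (R ^ (-(1 / 4) : ℝ)) (R ^ (-(1 / 150) : ℝ))
    (fun y => thP Φ f R 1 y.2) (QF (Γ := Γ) G χ ch A.z R u) (fun k y => gE Φ h k y.2) (A.n R + 1) p2 (Real.rpow_nonneg hR0.le _)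
    (Real.rpow_le_rpow_of_exponent_le hRge (by norm_num)) (Real.rpow_le_one_of_one_le_of_nonpos hRge (by norm_num)) hFB hFT q2
    (fun j hj y x hyx => q3 j y x hj (v3 y x hyx).1) hone).2 (by omega)
  -- the average
  have hav : (fun y : YS Γ d => (((A.n R + 1 : ℕ) : ℝ)⁻¹ * ∑ j ∈ Finset.range (A.n R + 1), gE Φ h j y.2) * ‖QF G χ ch A.z R u y‖ ^ 2) = fun y : YS Γ d => avP Φ h (A.tu R) y.2 * ‖QF G χ ch A.z R u y‖ ^ 2 := by
    funext y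
    rw [q1]
  rw [hav] at hE
  have hres : ∫ y in DT d {(1 : Γ)}, gE Φ h 0 y.2 * ‖QF G χ ch A.z R u y‖ ^ 2 ∂mW Γ G r0 R = ∫ y in DT d {(1 : Γ)} ∩ GW Γ G r0 2 R, gE Φ h 0 y.2 * ‖QF G χ ch A.z R u y‖ ^ 2 ∂mY Γ d := by
    unfold mW
    rw [Measure.restrict_restrict p1.meas]
  rw [hres] at hE
  -- the numbers
  have hsq : Real.sqrt (R ^ (-(1 / 150) : ℝ)) = R ^ (-(1 / 300) : ℝ) := by
    rw [Real.sqrt_eq_rpow, ← Real.rpow_mul hR0.le]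
    norm_num
  have hwb : R ^ (-(1 / 4) : ℝ) * R ^ (1 / 200 : ℝ) ≤ R ^ (-(1 / 300) : ℝ) := by
    rw [← Real.rpow_add hR0]
    exact Real.rpow_le_rpow_of_exponent_le hRge (by norm_num)
  have hn : ((A.n R + 1 : ℕ) : ℝ) ≤ Real.log R + 1 := by
    have a1 : 0 ≤ Real.log R := Real.log_nonneg hRge
    have a2 : ((A.n R : ℕ) : ℝ) ≤ A.e2 * Real.log R := Nat.floor_le (mul_nonneg hA.e2.le a1)
    have a3 : A.e2 * Real.log R ≤ 1 * Real.log R := mul_le_mul_of_nonneg_right he2 a1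
    push_cast
    linarith
  have hx : 0 ≤ R ^ (-(1 / 300) : ℝ) := Real.rpow_nonneg hR0.le _
  have hfin : R ^ (-(1 / 400) : ℝ) = R ^ (1 / 1200 : ℝ) * R ^ (-(1 / 300) : ℝ) := by
    rw [← Real.rpow_add hR0]
    norm_num
  have hE2 : ((A.n R + 1 : ℕ) : ℝ) * ((R ^ (-(1 / 4) : ℝ) * R ^ (1 / 200 : ℝ) + 11 * Real.sqrt (R ^ (-(1 / 150) : ℝ))) * nY (mW Γ G r0 R) (DT d {(1 : Γ)}) (QF (Γ := Γ) G χ ch A.z R u)) ≤
      (Real.log R + 1) * (12 * R ^ (-(1 / 300) : ℝ) * (2 * nn G F u)) := by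
    have a0 : 0 ≤ nY (mW Γ G r0 R) (DT d {(1 : Γ)}) (QF (Γ := Γ) G χ ch A.z R u) := by linarith
    have a1 : R ^ (-(1 / 4) : ℝ) * R ^ (1 / 200 : ℝ) + 11 * Real.sqrt (R ^ (-(1 / 150) : ℝ)) ≤ 12 * R ^ (-(1 / 300) : ℝ) := by
      rw [hsq]; linarith
    have a2 : (R ^ (-(1 / 4) : ℝ) * R ^ (1 / 200 : ℝ) + 11 * Real.sqrt (R ^ (-(1 / 150) : ℝ))) * nY (mW Γ G r0 R) (DT d {(1 : Γ)}) (QF (Γ := Γ) G χ ch A.z R u) ≤
        12 * R ^ (-(1 / 300) : ℝ) * (2 * nn G F u) := mul_le_mul a1 hY1 a0 (by positivity)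
    exact mul_le_mul hn a2 (mul_nonneg (by positivity) a0) (by linarith [Real.log_nonneg hRge])
  have hE3 := (abs_sub_le _ _ _).trans (add_le_add (hE.trans hE2) q4)
  refine hE3.trans ?_
  rw [hfin]
  have hlast : (24 * Real.log R + 25) * (R ^ (-(1 / 300) : ℝ) * nn G F u) ≤ R ^ (1 / 1200 : ℝ) * (R ^ (-(1 / 300) : ℝ) * nn G F u) :=
    mul_le_mul_of_nonneg_right l1 (mul_nonneg hx hnn)
  have e1 : (Real.log R + 1) * (12 * R ^ (-(1 / 300) : ℝ) * (2 * nn G F u)) + R ^ (-(1 / 300) : ℝ) * nn G F u = (24 * Real.log R + 25) * (R ^ (-(1 / 300) : ℝ) * nn G F u) := by ring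
  rw [e1, mul_assoc]
  exact hlast

end

end Pool.Agent.VDI
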