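import Pool.Agent.helper55.VDI.SpecB1
import Pool.Agent.helper23.VD.EG8

/-!
# Project INF (MP_07c750_an), version B, row EG8B: the time averages (copy of helper23, VD row EG8)
-/

set_option autoImplicit false

open scoped ContDiff Topology InnerProductSpace ComplexConjugate ENNReal
open MeasureTheory Filter Set

namespace Pool.Agent.VDI

open Pool.Agent.VD
open Pool.Agent.VQ (CH KZ PS perZ cmZ)
open Pool.Agent.RPQ (IsOp)
open Pool.Agent.VDA (STP FB FR FT nY OY OA)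
open Pool.Agent.VDE (FDX)

noncomputable section

theorem EG8B_proof (hEF8 : EF8B_stmt) (hEG0 : EG0B_stmt) (hEE1 : EE1_stmt) (hADMD : ADMD_stmt) (hAMVI : AMVI_stmt) : I8B_stmt := by
  intro d Γ _ _ K F0 r0 χ ch k B B' bn hd hK hF hχ hch
  obtain ⟨hFD, B'', hBB, hEG0⟩ := hEG0 d Γ K F0 r0 χ ch k B B' bn hd hK hF hχ hch
  obtain ⟨C1, hC1, hEF8⟩ := hEF8 d Γ K k B'' bn r0 χ hK hχ
  obtain ⟨R1, hR1, hEE1⟩ := hEE1 d Γ K k B'' hK
  refine ⟨max C1 8, hC1.trans (le_max_left _ _), fun A h hA hTD => ?_⟩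
  have hmono : Adm C1 A := by
    have hz1 : 0 < A.z1 := lt_of_lt_of_le (mul_pos (by positivity) hA.z) hA.z1
    have hz2 : 0 < A.z2 := lt_of_lt_of_le (mul_pos (by positivity) hz1) hA.z2
    exact ⟨hA.e2, (mul_le_mul_of_nonneg_right (le_max_left _ _) hA.e2.le).trans hA.e2', hA.z,
      (mul_le_mul_of_nonneg_right (le_max_left _ _) hA.z.le).trans hA.z1,
      (mul_le_mul_of_nonneg_right (le_max_left _ _) hz1.le).trans hA.z2,
      (mul_le_mul_of_nonneg_right (le_max_left _ _) hz2.le).trans hA.up⟩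
  have hz8 : A.z ≤ 1 / 8 := by
    have h8 : (8 : ℝ) ≤ max C1 8 := le_max_right _ _
    have hz1 : 8 * A.z ≤ A.z1 := (mul_le_mul_of_nonneg_right h8 hA.z.le).trans hA.z1
    have hz10 : 0 < A.z1 := by linarith [hA.z]
    have hz2 : 8 * A.z1 ≤ A.z2 := (mul_le_mul_of_nonneg_right h8 hz10.le).trans hA.z2
    have hz20 : 0 < A.z2 := by linarith
    have hz3 : 8 * A.z2 ≤ 1 := (mul_le_mul_of_nonneg_right h8 hz20.le).trans hA.up
    linarith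
  obtain ⟨R2, hR2, hEG0⟩ := hEG0 A.z hA.z hz8
  obtain ⟨R3, hR3, hEF8⟩ := hEF8 ch A h hch hmono hTD.inv hTD.smooth hTD.bd
  obtain ⟨R4, hR4, hnum⟩ := EG8_num 16 (1 / 400) (1 / 500) (by norm_num)
  refine ⟨1 / 500, max (max R1 R2) (max R3 R4), by norm_num, hR4.trans ((le_max_right _ _).trans (le_max_right _ _)), ?_⟩
  intro R G G' Φ f f' μ φ hR hG hΦ hE
  have hRR1 : R1 ≤ R := ((le_max_left _ _).trans (le_max_left _ _)).trans hR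
  have hRR2 : R2 ≤ R := ((le_max_right _ _).trans (le_max_left _ _)).trans hR
  have hRR3 : R3 ≤ R := ((le_max_left _ _).trans (le_max_right _ _)).trans hR
  have hRR4 : R4 ≤ R := ((le_max_right _ _).trans (le_max_right _ _)).trans hR
  have hR1' : 1 ≤ R := hR4.trans hRR4
  have hR0 : 0 < R := by linarith
  obtain ⟨hNr, hT, hFφ, hFu, hup, hn1, hn2, hn3, hPφ, hPu, hPd, hPa⟩ := hEG0 R G G' f f' μ φ hRR2 hG hE
  have hAp : ApB Γ K k B'' bn G F0 R f (uE f' φ) := ⟨G', hNr, hEE1 F0 G' R f f' μ φ hRR1 hFD hNr.cls hT⟩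
  have hB := hEF8 R F0 G Φ f (uE f' φ) hRR3 hFD ⟨hK, hBB G hG, hΦ⟩ hAp
  obtain ⟨-, -, -, -, hcomp, -⟩ := hAMVI d Γ K k B G hK hG
  obtain ⟨hfin, hrest⟩ := EG8_fin hADMD hK hG hFD r0 R
  set N : ℝ := nn G F0 φ with hN
  have hN0 : 0 ≤ N := integral_nonneg fun z => by positivity
  have hrp : ∀ a b : ℝ, a ≤ b → R ^ (-b) ≤ R ^ (-a) := fun a b hab => Real.rpow_le_rpow_of_exponent_le hR1' (by linarith)
  -- the functions on the manifold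
  have hF0fin : mv G F0 < ⊤ := by
    obtain ⟨b, hb⟩ := hFD.bdd
    refine lt_of_le_of_lt (measure_mono fun x hx => ?_) (hcomp (Metric.closedBall 0 b) (isCompact_closedBall _ _))
    exact mem_closedBall_zero_iff.2 (hb x hx)
  have hF0fin' : IsFiniteMeasure ((mv G).restrict F0) := ⟨by rw [Measure.restrict_apply_univ]; exact hF0fin⟩
  have hintφ : ∀ ψ : V d → ℂ, Continuous ψ → Integrable (fun z => ‖ψ z‖ ^ 2) ((mv G).restrict F0) := by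
    intro ψ hψ
    obtain ⟨b, hb⟩ := hFD.bdd
    obtain ⟨L, hL⟩ := (isCompact_closedBall (0 : V d) b).exists_bound_of_continuousOn hψ.continuousOn
    refine Integrable.of_bound (hψ.norm.pow 2).aestronglyMeasurable (L ^ 2) ?_
    refine (ae_restrict_iff' hFD.meas).2 (Filter.Eventually.of_forall fun z hz => ?_)
    rw [norm_pow, norm_norm]
    exact pow_le_pow_left₀ (norm_nonneg _) (hL z (mem_closedBall_zero_iff.2 (hb z hz))) 2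
  have hinth : ∀ ψ : V d → ℂ, Continuous ψ → Integrable (fun z => h z * ‖ψ z‖ ^ 2) ((mv G).restrict F0) := by
    intro ψ hψ
    refine (hintφ ψ hψ).mono (hTD.smooth.continuous.mul (hψ.norm.pow 2)).aestronglyMeasurable (Filter.Eventually.of_forall fun z => ?_)
    rw [norm_mul, Real.norm_eq_abs, abs_of_nonneg (hTD.bd z).1]
    exact mul_le_of_le_one_left (norm_nonneg _) (hTD.bd z).2
  have hA1 : |(∫ x in F0, h x * ‖φ x‖ ^ 2 ∂mv G) - ∫ z in F0, h z * ‖uE f' φ z‖ ^ 2 ∂mv G| ≤ 3 * R ^ (-(1 / 2) : ℝ) * N := by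
    rw [← integral_sub (hinth φ hFφ.cont) (hinth _ hFu.cont)]
    have hle : ∀ z, |h z * ‖φ z‖ ^ 2 - h z * ‖uE f' φ z‖ ^ 2| ≤ 3 * R ^ (-(1 / 2) : ℝ) * ‖φ z‖ ^ 2 := by
      intro z
      have e1 := hup z
      have e0 : R ^ (-(1 / 2) : ℝ) ≤ 1 := Real.rpow_le_one_of_one_le_of_nonpos hR1' (by norm_num)
      have e00 : 0 ≤ R ^ (-(1 / 2) : ℝ) := Real.rpow_nonneg hR0.le _
      have e2 : |‖φ z‖ - ‖uE f' φ z‖| ≤ R ^ (-(1 / 2) : ℝ) * ‖φ z‖ := by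
        refine (abs_norm_sub_norm_le _ _).trans ?_
        rw [norm_sub_rev]
        exact e1
      have e3 : ‖uE f' φ z‖ ≤ 2 * ‖φ z‖ := by
        have := (abs_le.1 e2).1
        nlinarith [norm_nonneg (φ z)]
      rw [← mul_sub, abs_mul, abs_of_nonneg (hTD.bd z).1]
      refine (mul_le_of_le_one_left (abs_nonneg _) (hTD.bd z).2).trans ?_
      rw [show ‖φ z‖ ^ 2 - ‖uE f' φ z‖ ^ 2 = (‖φ z‖ - ‖uE f' φ z‖) * (‖φ z‖ + ‖uE f' φ z‖) by ring, abs_mul,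
        abs_of_nonneg (show 0 ≤ ‖φ z‖ + ‖uE f' φ z‖ by positivity)]
      calc |‖φ z‖ - ‖uE f' φ z‖| * (‖φ z‖ + ‖uE f' φ z‖) ≤ (R ^ (-(1 / 2) : ℝ) * ‖φ z‖) * (3 * ‖φ z‖) :=
            mul_le_mul e2 (by linarith) (by positivity) (by positivity)
        _ = 3 * R ^ (-(1 / 2) : ℝ) * ‖φ z‖ ^ 2 := by ring
    calc |∫ z in F0, (h z * ‖φ z‖ ^ 2 - h z * ‖uE f' φ z‖ ^ 2) ∂mv G| ≤ ∫ z in F0, |h z * ‖φ z‖ ^ 2 - h z * ‖uE f' φ z‖ ^ 2| ∂mv G :=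
          abs_integral_le_integral_abs
      _ ≤ ∫ z in F0, 3 * R ^ (-(1 / 2) : ℝ) * ‖φ z‖ ^ 2 ∂mv G :=
          integral_mono ((hinth φ hFφ.cont).sub (hinth _ hFu.cont)).abs ((hintφ φ hFφ.cont).const_mul _) hle
      _ = 3 * R ^ (-(1 / 2) : ℝ) * N := by rw [integral_const_mul]; rfl
  -- the functions of the index
  have htu : 0 < A.tu R := by unfold Par.tu; positivity
  obtain ⟨havc, hav⟩ := EG8_avp Φ h hΦ.smooth.continuous hTD.smooth.continuous hTD.bd (A.tu R) htu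
  have havm : Measurable fun y : YS Γ d => avP Φ h (A.tu R) y.2 := havc.measurable.comp measurable_snd
  set a : YS Γ d → ℂ := QF G χ ch A.z R φ with ha
  set b : YS Γ d → ℂ := QF G χ ch A.z R (uE f' φ) with hb
  set ν : Measure (YS Γ d) := (mY Γ d).restrict (DT d {(1 : Γ)} ∩ GW Γ G r0 2 R) with hν
  obtain ⟨ca, hca⟩ := hPφ.bdd
  obtain ⟨cb, hcb⟩ := hPu.bdd
  have ia := EG8_int ν a hPφ.meas ca hca
  have ib := EG8_int ν b hPu.meas cb hcb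
  have idf := EG8_int ν (fun y => b y - a y) (hPu.meas.sub hPφ.meas) (cb + ca) (fun y => (norm_sub_le _ _).trans (add_le_add (hcb y) (hca y)))
  have iav : ∀ v : YS Γ d → ℂ, Measurable v → Integrable (fun y => ‖v y‖ ^ 2) ν → Integrable (fun y : YS Γ d => avP Φ h (A.tu R) y.2 * ‖v y‖ ^ 2) ν := by
    intro v hv hi
    refine hi.mono (havm.mul (hv.norm.pow_const 2)).aestronglyMeasurable (Filter.Eventually.of_forall fun y => ?_)
    rw [norm_mul, Real.norm_eq_abs, abs_of_nonneg (hav y.2).1]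
    exact mul_le_of_le_one_left (norm_nonneg _) (hav y.2).2
  have hCC : |(∫ y, avP Φ h (A.tu R) y.2 * ‖b y‖ ^ 2 ∂ν) - ∫ y, avP Φ h (A.tu R) y.2 * ‖a y‖ ^ 2 ∂ν| ≤ 6 * R ^ (-(1 / 2) : ℝ) * N := by
    rw [← integral_sub (iav b hPu.meas ib) (iav a hPφ.meas ia)]
    have ht : 0 < R ^ (1 / 2 : ℝ) := Real.rpow_pos_of_pos hR0 _
    have hti : (R ^ (1 / 2 : ℝ))⁻¹ = R ^ (-(1 / 2) : ℝ) := by rw [Real.rpow_neg hR0.le]
    have hle : ∀ y, |avP Φ h (A.tu R) y.2 * ‖b y‖ ^ 2 - avP Φ h (A.tu R) y.2 * ‖a y‖ ^ 2| ≤ (R ^ (1 / 2 : ℝ) + 1) * ‖b y - a y‖ ^ 2 + R ^ (-(1 / 2) : ℝ) * ‖a y‖ ^ 2 := by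
      intro y
      rw [← mul_sub, abs_mul, abs_of_nonneg (hav y.2).1]
      refine (mul_le_of_le_one_left (abs_nonneg _) (hav y.2).2).trans ?_
      have := EG8_pt (a y) (b y) (R ^ (1 / 2 : ℝ)) ht
      rwa [hti] at this
    have hPd' : ∫ y, ‖b y - a y‖ ^ 2 ∂ν ≤ 2 * R ^ (-1 : ℝ) * N := hPd
    have hPa' : ∫ y, ‖a y‖ ^ 2 ∂ν ≤ (1 + R ^ (-(1 / 4) : ℝ)) * N := hPa
    have e4 : R ^ (-(1 / 4) : ℝ) ≤ 1 := Real.rpow_le_one_of_one_le_of_nonpos hR1' (by norm_num)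
    have e1 : R ^ (1 / 2 : ℝ) * R ^ (-1 : ℝ) = R ^ (-(1 / 2) : ℝ) := by rw [← Real.rpow_add hR0]; norm_num
    have e2 : R ^ (-1 : ℝ) ≤ R ^ (-(1 / 2) : ℝ) := Real.rpow_le_rpow_of_exponent_le hR1' (by norm_num)
    have e3 : 0 ≤ R ^ (-(1 / 2) : ℝ) := Real.rpow_nonneg hR0.le _
    calc |∫ y, (avP Φ h (A.tu R) y.2 * ‖b y‖ ^ 2 - avP Φ h (A.tu R) y.2 * ‖a y‖ ^ 2) ∂ν| ≤ ∫ y, |avP Φ h (A.tu R) y.2 * ‖b y‖ ^ 2 - avP Φ h (A.tu R) y.2 * ‖a y‖ ^ 2| ∂ν :=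
          abs_integral_le_integral_abs
      _ ≤ ∫ y, ((R ^ (1 / 2 : ℝ) + 1) * ‖b y - a y‖ ^ 2 + R ^ (-(1 / 2) : ℝ) * ‖a y‖ ^ 2) ∂ν :=
          integral_mono ((iav b hPu.meas ib).sub (iav a hPφ.meas ia)).abs ((idf.const_mul _).add (ia.const_mul _)) hle
      _ = (R ^ (1 / 2 : ℝ) + 1) * (∫ y, ‖b y - a y‖ ^ 2 ∂ν) + R ^ (-(1 / 2) : ℝ) * ∫ y, ‖a y‖ ^ 2 ∂ν := by
          rw [integral_add (idf.const_mul _) (ia.const_mul _), integral_const_mul, integral_const_mul]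
      _ ≤ (R ^ (1 / 2 : ℝ) + 1) * (2 * R ^ (-1 : ℝ) * N) + R ^ (-(1 / 2) : ℝ) * ((1 + R ^ (-(1 / 4) : ℝ)) * N) :=
          add_le_add (mul_le_mul_of_nonneg_left hPd' (by positivity)) (mul_le_mul_of_nonneg_left hPa' e3)
      _ = 2 * (R ^ (1 / 2 : ℝ) * R ^ (-1 : ℝ)) * N + 2 * R ^ (-1 : ℝ) * N + R ^ (-(1 / 2) : ℝ) * ((1 + R ^ (-(1 / 4) : ℝ)) * N) := by ring
      _ ≤ 2 * R ^ (-(1 / 2) : ℝ) * N + 2 * R ^ (-(1 / 2) : ℝ) * N + R ^ (-(1 / 2) : ℝ) * ((1 + 1) * N) := by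
          rw [e1]
          gcongr
      _ = 6 * R ^ (-(1 / 2) : ℝ) * N := by ring
  rw [hrest] at hB ⊢
  have hB2 : R ^ (-(1 / 400) : ℝ) * nn G F0 (uE f' φ) ≤ 2 * R ^ (-(1 / 400) : ℝ) * N := by
    calc R ^ (-(1 / 400) : ℝ) * nn G F0 (uE f' φ) ≤ R ^ (-(1 / 400) : ℝ) * (2 * N) := mul_le_mul_of_nonneg_left hn1 (Real.rpow_nonneg hR0.le _)
      _ = _ := by ring
  have hlast : 9 * R ^ (-(1 / 2) : ℝ) * N + 2 * R ^ (-(1 / 400) : ℝ) * N ≤ R ^ (-(1 / 500) : ℝ) * N := by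
    have e1 : R ^ (-(1 / 2) : ℝ) ≤ R ^ (-(1 / 400) : ℝ) := Real.rpow_le_rpow_of_exponent_le hR1' (by norm_num)
    have e2 := hnum R hRR4
    have e3 : 0 ≤ R ^ (-(1 / 400) : ℝ) := Real.rpow_nonneg hR0.le _
    calc 9 * R ^ (-(1 / 2) : ℝ) * N + 2 * R ^ (-(1 / 400) : ℝ) * N = (9 * R ^ (-(1 / 2) : ℝ) + 2 * R ^ (-(1 / 400) : ℝ)) * N := by ring
      _ ≤ R ^ (-(1 / 500) : ℝ) * N := mul_le_mul_of_nonneg_right (by linarith) hN0
  have h1 := abs_le.1 hA1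
  have h2 := abs_le.1 (hB.trans hB2)
  have h3 := abs_le.1 hCC
  rw [abs_le]
  constructor
  · linarith [h1.1, h2.1, h2.2, h3.1, h3.2, h1.2]
  · linarith [h1.1, h2.1, h2.2, h3.1, h3.2, h1.2]

end

end Pool.Agent.VDI
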