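import Pool.Agent.helper55.VDI.SpecB1
import Pool.Agent.helper38.VD.EF3

/-!
# Project INF (MP_07c750_an), version B, row EF3B: copy of helper helper38, VD row EF3, for pairs of metrics
-/

set_option autoImplicit false

open scoped ContDiff Topology InnerProductSpace ComplexConjugate ENNReal
open MeasureTheory Filter Set

namespace Pool.Agent.VDI

open Pool.Agent.VD
open Pool.Agent.VQ (CH KZ PS perZ cmZ)
open Pool.Agent.RPQ (IsOp)
open Pool.Agent.VDA (STP FB FR FT nY OY OA)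
open Pool.Agent.VDE (FDX)

noncomputable section

theorem EF3B_proof (hEST : EST_stmt) (hEAM : VDA.EAM_stmt) (hEAZ : VDA.EAZ_stmt) (hEO1 : EO1B_stmt) (hEE2 : EE2B_stmt) (hEEY : EEY_stmt) (hAUMD : AUMD_stmt) (hATND : ATND_stmt) (hLEN : LEN_stmt)
    (hAMVI : AMVI_stmt) (hADMD : ADMD_stmt) : EF3B_stmt := by
  intro d Γ _ _ K k B bn r0 χ hK hPU
  obtain ⟨C1, hC1, H1⟩ := hEST d Γ K k B r0 χ hK hPU
  obtain ⟨C2, hC2, H2⟩ := hEO1 d Γ K k B bn r0 χ hK hPU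
  obtain ⟨C3, hC3, H3⟩ := hEE2 d Γ K k B bn r0 χ hK hPU
  obtain ⟨C4, hC4, H4⟩ := hEEY d Γ K k B r0 hK
  obtain ⟨C5, hC5, H5⟩ := hAUMD d Γ K k B r0 χ hK hPU
  obtain ⟨C6, hC6, H6⟩ := hATND d Γ K k B r0 χ hK hPU
  refine ⟨C1 + C2 + C3 + C4 + C5 + C6, by linarith, fun ch A hch hA => ?_⟩
  obtain ⟨R1, hR1, H1⟩ := H1 ch A hch (EAM0 hA hC1 (by linarith))
  obtain ⟨R2, hR2, H2⟩ := H2 ch A hch (EAM0 hA hC2 (by linarith))
  obtain ⟨R3, hR3, H3⟩ := H3 ch A hch (EAM0 hA hC3 (by linarith))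
  obtain ⟨R4, hR4, H4⟩ := H4 A (EAM0 hA hC4 (by linarith))
  obtain ⟨R5, hR5, H5⟩ := H5 ch A hch (EAM0 hA hC5 (by linarith))
  obtain ⟨R6, hR6, H6⟩ := H6 ch A hch (EAM0 hA hC6 (by linarith))
  obtain ⟨R7, hR7, H7⟩ := EF3_num
  refine ⟨R1 + R2 + R3 + R4 + R5 + R6 + R7, by linarith, ?_⟩
  intro R F G Φ f u hR hFD hOK hAp
  obtain ⟨L, l1, l2, l3, l4⟩ := hLEN Γ (hAMVI d Γ K k B G hK hOK.cls).1
  have hLF : LF L := ⟨l1, l2, l3, l4⟩
  obtain ⟨s1, s2, s3, s4, s5, s6, s7⟩ := H1 R F G Φ L (by linarith) hFD hOK hLF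
  have t1 := H2 R F G Φ f u (by linarith) hFD hOK hAp
  obtain ⟨u1, -, u3, u4, -⟩ := H3 R F G f u (by linarith) hFD hOK.cls hAp
  obtain ⟨-, w2, w3⟩ := H4 R G Φ f (by linarith) hOK hAp.sm
  obtain ⟨x1, x2, x3, -⟩ := H5 R G Φ (by linarith) hOK
  have hfc : Continuous f := hAp.sm.smooth.continuous
  obtain ⟨-, y2, -⟩ := (H6 R G Φ (by linarith) hOK).2 f hfc
  have hRone : 1 ≤ R := by linarith
  have hRpos : 0 < R := by linarith
  have hnn : 0 ≤ nn G F u := by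
    unfold nn
    exact integral_nonneg fun z => by positivity
  have hD : Dm (⊤ : Subgroup Γ) F ({1} : Set Γ) := Or.inl ⟨rfl, hFD, rfl⟩
  obtain ⟨-, -, -, -, z5, z6⟩ := hADMD d Γ K k B G hK hOK.cls
  obtain ⟨-, z7, -, -⟩ := z6 (⊤ : Subgroup Γ) F ({1} : Set Γ) hD
  set v : YS Γ d → ℂ := QF G χ ch A.z R u with hv
  have hFB : FB Γ v := (s7 v).mpr u1
  set m : Measure (YS Γ d) := mW Γ G r0 R with hm
  have h15 : R ^ (-(1 / 5) : ℝ) ≤ 1 := Real.rpow_le_one_of_one_le_of_nonpos hRone (by norm_num)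
  have h15' : 0 ≤ R ^ (-(1 / 5) : ℝ) := Real.rpow_nonneg hRpos.le _
  -- the norm of the coefficients
  have hN : nY m (DT d {(1 : Γ)}) v ≤ 2 * nn G F u := by
    rw [s6]
    refine u3.trans ?_
    exact mul_le_mul_of_nonneg_right (by linarith) hnn
  -- one step
  have hstep : nY m (DT d {(1 : Γ)}) (fun y => OY m (us G Φ r0 χ ch A R) v y - Complex.exp (((thP Φ f R 1 y.2 : ℝ) : ℂ) * Complex.I) * v y) ≤ (R ^ (-(1 / 140) : ℝ)) ^ 2 * (2 * nn G F u) := by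
    have h1 : (fun y => OY m (us G Φ r0 χ ch A R) v y - Complex.exp (((thP Φ f R 1 y.2 : ℝ) : ℂ) * Complex.I) * v y) =
        fun y => Op (us G Φ r0 χ ch A R) v y - Complex.exp (((thP Φ f R 1 y.2 : ℝ) : ℂ) * Complex.I) * v y := by
      funext y
      rw [s5 (us G Φ r0 χ ch A R) v y (fun a b hab => (x3 a b hab).1.2.1)]
    rw [h1, s6]
    refine t1.trans ?_
    have h2 : (R ^ (-(1 / 140) : ℝ)) ^ 2 = R ^ (-(1 / 70) : ℝ) := by
      rw [sq, ← Real.rpow_add hRpos]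
      norm_num
    rw [h2]
    have h3 : 0 ≤ R ^ (-(1 / 70) : ℝ) * nn G F u := mul_nonneg (Real.rpow_nonneg hRpos.le _) hnn
    linarith
  have hft : ∀ t : ℝ, FT Γ (fun y : YS Γ d => thP Φ f R t y.2) := fun t => ⟨w2 t, fun γ y => rfl⟩
  have hn : (A.n R : ℝ) ≤ Real.log R := by
    have h1 : (A.n R : ℝ) ≤ A.e2 * Real.log R := Nat.floor_le (mul_nonneg hA.e2.le (Real.log_nonneg hRone))
    have h2 : A.e2 ≤ 1 := by
      have h3 := hA.e2'
      have h4 := hA.e2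
      nlinarith
    have h5 := Real.log_nonneg hRone
    nlinarith
  have hmain := hEAM Γ (YS Γ d) m (DT d {(1 : Γ)}) (dYS L) s1 (us G Φ r0 χ ch A R) (fun j => usn G Φ r0 χ ch A R j) (R ^ (-(1 / 5) : ℝ)) (R ^ (1 / 200 : ℝ)) (R ^ (-(1 / 4) : ℝ))
    (R ^ (-(1 / 140) : ℝ)) (2 * nn G F u) (fun y => thP Φ f R 1 y.2) (fun j y => thP Φ f R ((j : ℝ) + 1) y.2) v (A.n R) s2 (s3 _ (x2 0)) s4 (Real.rpow_nonneg hRpos.le _) (Real.rpow_nonneg hRpos.le _)
    hFB hN (hft 1) (fun j => hft _) (fun j hj y x hyx => by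
      have h1 := w3 ((j : ℝ) + 1) y x (x3 y x hyx).1 (by positivity) (by
        have h2 : ((j : ℝ) + 1) ≤ (A.n R : ℝ) := by exact_mod_cast hj
        change ((j : ℝ) + 1) ≤ (A.n R : ℝ) + 1
        linarith)
      have h3 : (((j + 1 : ℕ) : ℝ) + 1) = (j : ℝ) + 1 + 1 := by push_cast; ring
      rw [h3]
      exact h1) hstep (by
      have h1 : (((0 : ℕ) : ℝ) + 1) = 1 := by norm_num
      rw [h1]
      exact hstep) (A.n R) le_rfl
  have hz := hEAZ Γ (YS Γ d) m (DT d {(1 : Γ)}) (dYS L) s1 (KB G Φ r0 χ ch A R f) v (s3 _ y2) hFB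
  refine ⟨?_, ?_, fun T hT Ψ hΨ => ?_⟩
  · rw [hz.2.2, s6]
    exact ENNReal.ofReal_le_ofReal u3
  · have h1 : m.restrict (DT d {(1 : Γ)} ∩ GW Γ G r0 1 R) = (mY Γ d).restrict (DT d {(1 : Γ)} ∩ GW Γ G r0 1 R) := by
      have hmeas : MeasurableSet (DT d {(1 : Γ)} ∩ GW Γ G r0 1 R) := z7.inter (z5 r0 1 R).1
      rw [hm]
      unfold mW
      rw [Measure.restrict_restrict hmeas]
      congr 1
      refine Set.inter_eq_left.mpr ?_
      rintro y ⟨-, hy1, hy2⟩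
      refine ⟨hy1, hy2.trans ?_⟩
      have : 0 ≤ R ^ (-(1 / 4) : ℝ) := Real.rpow_nonneg hRpos.le _
      linarith
    rw [h1]
    refine le_trans (ENNReal.ofReal_le_ofReal u4) ?_
    unfold nP
    exact EF3_le _ _
  · rw [hz.2.1 T Ψ hT hΨ]
    have h1 : nY m (DT d {(1 : Γ)}) (fun y => OY m (KB G Φ r0 χ ch A R f) v y - v y) =
        nY m (DT d {(1 : Γ)}) (fun y => OY m (usn G Φ r0 χ ch A R (A.n R)) v y - Complex.exp (((thP Φ f R ((A.n R : ℝ) + 1) y.2 : ℝ) : ℂ) * Complex.I) * v y) := by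
      unfold nY
      refine integral_congr_ae (Filter.Eventually.of_forall fun y => ?_)
      have h2 : OY m (KB G Φ r0 χ ch A R f) v y = Complex.exp (-(((thP Φ f R (A.tu R) y.2 : ℝ) : ℂ) * Complex.I)) * OY m (usn G Φ r0 χ ch A R (A.n R)) v y := by
        unfold OY KB
        rw [← integral_const_mul]
        refine integral_congr_ae (Filter.Eventually.of_forall fun x => ?_)
        change Complex.exp (-(((thP Φ f R (A.tu R) y.2 : ℝ) : ℂ) * Complex.I)) * ub G Φ r0 χ ch A R y x * v x = Complex.exp (-(((thP Φ f R (A.tu R) y.2 : ℝ) : ℂ) * Complex.I)) * (usn G Φ r0 χ ch A R (A.n R) y x * v x)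
        rw [mul_assoc]
        rfl
      have h3 : A.tu R = (A.n R : ℝ) + 1 := rfl
      rw [h3] at h2
      change ‖OY m (KB G Φ r0 χ ch A R f) v y - v y‖ ^ 2 = ‖OY m (usn G Φ r0 χ ch A R (A.n R)) v y - Complex.exp (((thP Φ f R ((A.n R : ℝ) + 1) y.2 : ℝ) : ℂ) * Complex.I) * v y‖ ^ 2
      rw [h2]
      have h4 : Complex.exp (-(((thP Φ f R ((A.n R : ℝ) + 1) y.2 : ℝ) : ℂ) * Complex.I)) * OY m (usn G Φ r0 χ ch A R (A.n R)) v y - v y =
          Complex.exp (-(((thP Φ f R ((A.n R : ℝ) + 1) y.2 : ℝ) : ℂ) * Complex.I)) * (OY m (usn G Φ r0 χ ch A R (A.n R)) v y - Complex.exp (((thP Φ f R ((A.n R : ℝ) + 1) y.2 : ℝ) : ℂ) * Complex.I) * v y) := by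
        rw [mul_sub, ← mul_assoc, ← Complex.exp_add, neg_add_cancel, Complex.exp_zero, one_mul]
      have h5 : ‖Complex.exp (-(((thP Φ f R ((A.n R : ℝ) + 1) y.2 : ℝ) : ℂ) * Complex.I))‖ = 1 := by
        rw [← neg_mul, ← Complex.ofReal_neg]
        exact Complex.norm_exp_ofReal_mul_I _
      rw [h4, norm_mul, h5, one_mul]
    rw [h1]
    refine hmain.2.trans ?_
    have h6 := mul_le_mul_of_nonneg_right (H7 R (by linarith) (A.n R) hn) hnn
    refine le_trans (le_of_eq ?_) h6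
    ring

end

end Pool.Agent.VDI
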