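import Pool.Agent.helper74.VDI.SpecB0

/-!
# Project INF (MP_07c750_an), version B, block E for PAIRS OF METRICS: the fixed vector and the time averages, rows `vdi:X`

The packets, beams and the flow belong to `G`; the eigenfunction belongs to `e^(f') G'`, `G'` is `R^(-L)`-close to `G` (`Nr`, `L = LX d = 10 d + 100`). `u = uE f' φ = e^((d-2) f'/4) φ` satisfies `Hop G' R u = (R/2) f u + small` (VD row EE1 for `G'`, a black box). Only THREE rows of block E use the equation: EED/EET (transport)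
and EE2 (energy window). Here they are proved for `G` and the operator of `G'` in the weak form: all derivatives fall on the beams, whose crude `C²` bounds (`≤ R^4`) are beaten by `R^(-L)`. All other rows are copies (`Ap` becomes `ApB`).

RULES. Row `vdi:XXX`: file `Pool/Agent/<seat>/VDI/XXX.lean`, `import Pool.Agent.helper55.VDI.SpecB1`, `set_option autoImplicit false`, namespace `Pool.Agent.VDI`, the `open` lines of this file, auxiliary lemmas prefixed `XXX_`, theorem `XXX_proof (h..) : XXX_stmt` (rows listed in `from` may be used as hypotheses `(h : YYY_stmt)`;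
all rows of VD, VDA may be hypotheses or imported proved files: `grep -rl XXX_proof Pool/Agent/*/VD/` on main). No `convert`, `congr!`, `native_decide`, no double quotes, no `private`, no commands starting with a sharp sign.
-/

set_option autoImplicit false

open scoped ContDiff Topology InnerProductSpace ComplexConjugate ENNReal
open MeasureTheory Filter Set

namespace Pool.Agent.VDI

open Pool.Agent.VD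
open Pool.Agent.VQ (CH KZ PS perZ cmZ)
open Pool.Agent.RPQ (IsOp)
open Pool.Agent.VDA (STP FB FR FT nY OY OA)
open Pool.Agent.VDE (FDX)

noncomputable section

variable {d : ℕ}

/-- approximate solutions for a nearby metric `G'` -/
def ApB (Γ : Type) [Group Γ] [MulAction Γ (V d)] (K : Set (V d)) (k : ℝ) (B : ℕ → ℕ → ℝ) (b : ℕ → ℝ) (G : V d → V d →L[ℝ] V d) (F : Set (V d)) (R : ℝ) (f : V d → ℝ) (u : V d → ℂ) : Prop :=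
  ∃ G' : V d → V d →L[ℝ] V d, Nr Γ K k B b R G G' ∧ Ap Γ B G' F R f u

theorem ApB.sm {Γ : Type} [Group Γ] [MulAction Γ (V d)] {K : Set (V d)} {k : ℝ} {B : ℕ → ℕ → ℝ} {b : ℕ → ℝ} {G : V d → V d →L[ℝ] V d} {F : Set (V d)} {R : ℝ} {f : V d → ℝ} {u : V d → ℂ} (h : ApB Γ K k B b G F R f u) : Sm Γ B (R ^ (1 / 100 : ℝ)) R f := by
  obtain ⟨G', -, h2⟩ := h
  exact h2.sm

theorem ApB.fh {Γ : Type} [Group Γ] [MulAction Γ (V d)] {K : Set (V d)} {k : ℝ} {B : ℕ → ℕ → ℝ} {b : ℕ → ℝ} {G : V d → V d →L[ℝ] V d} {F : Set (V d)} {R : ℝ} {f : V d → ℝ} {u : V d → ℂ} (h : ApB Γ K k B b G F R f u) : FH (⊤ : Subgroup Γ) F u := by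
  obtain ⟨G', -, h2⟩ := h
  exact h2.fh

theorem ApB.cd {Γ : Type} [Group Γ] [MulAction Γ (V d)] {K : Set (V d)} {k : ℝ} {B : ℕ → ℕ → ℝ} {b : ℕ → ℝ} {G : V d → V d →L[ℝ] V d} {F : Set (V d)} {R : ℝ} {f : V d → ℝ} {u : V d → ℂ} (h : ApB Γ K k B b G F R f u) : ContDiff ℝ 2 u := by
  obtain ⟨G', -, h2⟩ := h
  exact h2.cd

/-- the square root of the quotient of the densities -/
def roB (G G' : V d → V d →L[ℝ] V d) (x : V d) : ℝ := Real.sqrt (dens G' x / dens G x)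

/-- the error in the equation of the coefficients: the operator of the beams against the function `q` -/
def eB (G : V d → V d →L[ℝ] V d) (Φ : ℝ → P d → P d) (χ : V d → ℝ) (ch : ℝ → ℝ) (ζ ζ1 R : ℝ) (u q : V d → ℂ) (t : ℝ) (p : P d) : ℂ :=
  ((χ p.1 * cR d ch ζ R : ℝ) : ℂ) * ∫ z, dens G z • (u z * conj (Hop G R (bt G Φ ch ζ1 R 1 (Complex.I • 1) p t) z) - q z * conj (bt G Φ ch ζ1 R 1 (Complex.I • 1) p t z))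

/-! ## The operators of two nearby metrics -/

/-- **Row LPA** (nearby coefficients; short-medium; PURE calculus). Let `m ≥ r` be a natural number, `M = max 1 (B m 0)` etc. The set `S = {A | A symmetric, ‖u‖² ≤ M ⟪A u, u⟫ for all u, ‖A‖ ≤ M}` of operators is convex and compact and contains `G x`, `G' x` (`Cls.met.symm`, `Cls.lo`, `Cls.bd`; `Nr.cls`). On the open set `det A > 0` the functions
`F1 A = sqrt (det A)`, `F2 A = A.inverse` (`contDiffAt_map_inverse`), `F3 A = F1 A • F2 A` are smooth; `det A > 0` on `S` (positive definite; `IsMetric` gives `0 < (G x).det`: see the proofs of AHLD or EHD; or apply a lemma to `A`). Their first and second derivatives are bounded on the compact set `S`; mean value inequality on the convex set `S`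
(`Convex.norm_image_sub_le_of_norm_hasFDerivWithin_le`) for `F1, F2, F3` and for `fderiv ℝ F3`. `dens G x = F1 (G x)`, `IG G x = F2 (G x)`, `fderiv (F3 ∘ G) x = (fderiv F3 (G x)) ∘ (fderiv G x)`, `‖G x - G' x‖, ‖fderiv G x - fderiv G' x‖ ≤ |b m| R^(-LX d)` (`Nr.cl` for `n = 0, 1`: `norm_iteratedFDeriv_zero`, `norm_iteratedFDeriv_one`). -/
def LPA_stmt : Prop := ∀ (d : ℕ) (Γ : Type) [Group Γ] [MulAction Γ (V d)] (K : Set (V d)) (k : ℝ) (B : ℕ → ℕ → ℝ) (b : ℕ → ℝ) (r : ℝ), ∃ C : ℝ, 1 ≤ C ∧ ∀ (R : ℝ) (G G' : V d → V d →L[ℝ] V d) (x : V d), 1 ≤ R → Cls Γ K k B G → Nr Γ K k B b R G G' → ‖x‖ ≤ r →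
  |dens G x - dens G' x| ≤ C * R ^ (-LX d) ∧ ‖IG G x - IG G' x‖ ≤ C * R ^ (-LX d) ∧ ‖dens G x • IG G x - dens G' x • IG G' x‖ ≤ C * R ^ (-LX d) ∧
    ‖fderiv ℝ (fun y => dens G y • IG G y) x - fderiv ℝ (fun y => dens G' y • IG G' y) x‖ ≤ C * R ^ (-LX d)

/-- **Row LPB** (nearby operators; short; from LPA). `dens G x * lap G ψ x = ∑_i D(y ↦ Dψ y (A y e_i))(x) e_i`, `A y = dens G y • IG G y` (`dens > 0`; the function in the definition of `lap` is `Dψ y (A y e_i)`), so the difference is `∑_i D(y ↦ Dψ y ((A - A') y e_i))(x) e_i = ∑_i (D²ψ x e_i ((A - A') x e_i) + Dψ x (D(A - A') x e_i e_i))`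
(product rule; `A`, `A'` are smooth: AHLD or `IsMetric`), at most `d C R^(-L) (‖D²ψ‖ + ‖Dψ‖)`. `dens G Hop G ψ = (2R)⁻¹ (- dens G lap G ψ - R² dens G ψ)`. -/
def LPB_stmt : Prop := ∀ (d : ℕ) (Γ : Type) [Group Γ] [MulAction Γ (V d)] (K : Set (V d)) (k : ℝ) (B : ℕ → ℕ → ℝ) (b : ℕ → ℝ) (r : ℝ), FdK Γ K → ∃ C : ℝ, 1 ≤ C ∧ ∀ (R : ℝ) (G G' : V d → V d →L[ℝ] V d) (ψ : V d → ℂ) (x : V d), 1 ≤ R → Cls Γ K k B G → Nr Γ K k B b R G G' → ContDiff ℝ 2 ψ → ‖x‖ ≤ r →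
  ‖((dens G x : ℝ) : ℂ) * Hop G R ψ x - ((dens G' x : ℝ) : ℂ) * Hop G' R ψ x‖ ≤ C * R * R ^ (-LX d) * (‖ψ x‖ + ‖fderiv ℝ ψ x‖ + ‖fderiv ℝ (fderiv ℝ ψ) x‖)

/-- **Row RHB** (the quotient of the densities; short-medium; from LPA, AHLD, AMVI). (1) for `x ∈ K` (in a ball): LPA and `dens G x ≥ 1/C` (AHLD with `r` = a bound of `K`, `n = 0`); for all `x`: move `x` to `K` by `γ` (`FdK.cover`), both densities are multiplied by `|det Dγ(x)|⁻¹` (AMVI, 7th part, for `G` and for `G'`, `Nr.cls`).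
(2) invariance of the quotient: AMVI. (3) `|sqrt t - 1| ≤ |t - 1|`. (4) `dens` is smooth and positive (AMVI). (5) norms: `∫ .. ∂mv = ∫ dens • ..` (AMVI 8th part), `F` measurable and bounded (`FD`), `φ` continuous: pointwise comparison and `setIntegral_mono_on`; `R^(-LX d) C ≤ 1/2`, `(C R^(-LX d))² ≤ R^(-1)` for `R ≥ R0`. Lemmas `EG0_nn` (helper32/VD/EG0.lean), `EET_nn` (helper43/VD/EET.lean) can be imported. -/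
def RHB_stmt : Prop := ∀ (d : ℕ) (Γ : Type) [Group Γ] [MulAction Γ (V d)] (K : Set (V d)) (k : ℝ) (B : ℕ → ℕ → ℝ) (b : ℕ → ℝ), FdK Γ K → ∃ C R0 : ℝ, 1 ≤ C ∧ 1 ≤ R0 ∧ ∀ (R : ℝ) (G G' : V d → V d →L[ℝ] V d), R0 ≤ R → Cls Γ K k B G → Nr Γ K k B b R G G' →
  (∀ x, |dens G' x - dens G x| ≤ C * R ^ (-LX d) * dens G x) ∧ (∀ (γ : Γ) (x : V d), roB G G' (γ • x) = roB G G' x) ∧ (∀ x, |roB G G' x - 1| ≤ C * R ^ (-LX d)) ∧ Continuous (roB G G') ∧ (∀ x, 0 < roB G G' x ∧ dens G' x = roB G G' x ^ 2 * dens G x) ∧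
  ∀ F : Set (V d), FD Γ F → ∀ φ : V d → ℂ, Continuous φ → nn G' F φ ≤ 2 * nn G F φ ∧ nn G F φ ≤ 2 * nn G' F φ ∧ nn G F (fun z => ((1 - roB G G' z : ℝ) : ℂ) * φ z) ≤ R ^ (-1 : ℝ) * nn G F φ

/-- **Row QRB** (packet coefficients for two metrics; short; from RHB, AMVI). Both sides are integrals against Lebesgue measure (AMVI 8th part), and the integrands are equal pointwise: with `w = y.1⁻¹ z`: `dens G' z / sqrt (dens G' w) = ρ(z)² dens G z / (ρ(w) sqrt (dens G w))` and `ρ(w) = ρ(z)` (RHB (2), (5); `sqrt (ρ² x) = ρ sqrt x`). -/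
def QRB_stmt : Prop := ∀ (d : ℕ) (Γ : Type) [Group Γ] [MulAction Γ (V d)] (K : Set (V d)) (k : ℝ) (B : ℕ → ℕ → ℝ) (b : ℕ → ℝ), FdK Γ K → ∃ R0 : ℝ, 1 ≤ R0 ∧ ∀ (R : ℝ) (G G' : V d → V d →L[ℝ] V d) (χ : V d → ℝ) (ch : ℝ → ℝ) (ζ : ℝ) (φ : V d → ℂ) (y : YS Γ d), R0 ≤ R → Cls Γ K k B G → Nr Γ K k B b R G G' →
  QF G' χ ch ζ R φ y = QF G χ ch ζ R (fun z => ((roB G G' z : ℝ) : ℂ) * φ z) y

/-- **Row GWB** (windows; short; from LPA, AHLD). `y ∈ GW G' r0 (1/2) R`: `x = y.2.1`, `ξ = y.2.2`, `Ham G' = 1/2 + Ep ≤ 1`, so `‖ξ‖² ≤ 2 C` (AHLD for `G'`, radius `r0`: `‖ξ‖² ≤ C ⟪IG G' x ξ, ξ⟫`), `|Ep G - Ep G'| ≤ ‖IG G x - IG G' x‖ ‖ξ‖²/2 ≤ C² R^(-LX d) ≤ R^(-1/4)/2` for `R ≥ R0`. -/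
def GWB_stmt : Prop := ∀ (d : ℕ) (Γ : Type) [Group Γ] [MulAction Γ (V d)] (K : Set (V d)) (k : ℝ) (B : ℕ → ℕ → ℝ) (b : ℕ → ℝ) (r0 : ℝ), FdK Γ K → ∃ R0 : ℝ, 1 ≤ R0 ∧ ∀ (R : ℝ) (G G' : V d → V d →L[ℝ] V d), R0 ≤ R → Cls Γ K k B G → Nr Γ K k B b R G G' → GW Γ G' r0 (1 / 2) R ⊆ GW Γ G r0 1 R

/-- **Row UBL** (functions on balls; short-medium; from AMVI, AHLD, ASGF). Unfolding: `∫_ball |u|² dmv = ∑_γ ∫_(ball ∩ γ⁻¹ F) |u|² dmv = ∑_γ ∫_(F ∩ γ ball) |u|² dmv` (`FD.uniq`, `Γ` countable and measure preserving: AMVI; `u` invariant) and for every `z` at most `N = #(SG Γ d r)` elements `γ` satisfy `γ⁻¹ z ∈ ball` (if `γ0` is one of them,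
`γ⁻¹ γ0 ∈ SG r`; ASGF). So `∫_ball |u|² dmv ≤ N nn u`; Lebesgue measure: `dens ≥ 1/C` on the ball (AHLD). Do it with `lintegral`s. The proof of AISD or of AFBD has such an unfolding. `L¹`: Cauchy-Schwarz, volume of the ball. -/
def UBL_stmt : Prop := ∀ (d : ℕ) (Γ : Type) [Group Γ] [MulAction Γ (V d)] (K : Set (V d)) (k : ℝ) (B : ℕ → ℕ → ℝ) (r : ℝ), FdK Γ K → ∃ C : ℝ, 1 ≤ C ∧ ∀ (G : V d → V d →L[ℝ] V d) (F : Set (V d)) (u : V d → ℂ), Cls Γ K k B G → FD Γ F → FH (⊤ : Subgroup Γ) F u →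
  ∫ z in Metric.closedBall (0 : V d) r, ‖u z‖ ^ 2 ≤ C * nn G F u ∧ ∫ z in Metric.closedBall (0 : V d) r, ‖u z‖ ≤ C * Real.sqrt (nn G F u)

/-- **Row BCB** (crude bounds of beams; short-medium; from ABMP, ABMR, ACNF). ABMP first part with `Kd = 2`, `e = 0`, `ζ = ζ2 = ζ1`, `M = 0`, `Y0 = 1`, `P0 = i` (`EED_lag` in helper32/VD/EED.lean), `r = r0`; `|Ep| ≤ 2 R^(-1/4) ≤ 1/4` for `R ≥ 4096`: `bt w = exp (i R ξ·(w - x)) A(w - x)`, `(x, ξ) = Φ t p`, `‖ξ‖ ≤ C'` (ACNF), `‖D^j A‖ ≤ R^(C ζ1) (R^(1/2 + C ζ1))^j`, `C ζ1 ≤ 1/8` (choose `C`).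
Product rule twice: `≤ 16 (1 + C')² R^2 R^(C ζ1 ..) ≤ R^4`. Support: ABMR, ACNF (as `hW` in the proof of EED). -/
def BCB_stmt : Prop := ∀ (d : ℕ) (Γ : Type) [Group Γ] [MulAction Γ (V d)] (K : Set (V d)) (k : ℝ) (B : ℕ → ℕ → ℝ) (r0 : ℝ), FdK Γ K → ∃ C : ℝ, 1 ≤ C ∧ ∀ (ch : ℝ → ℝ) (ζ1 : ℝ), CH ch → 0 < ζ1 → C * ζ1 ≤ 1 → ∃ R0 : ℝ, 1 ≤ R0 ∧ ∀ (R t : ℝ) (G : V d → V d →L[ℝ] V d) (Φ : ℝ → P d → P d) (p : P d) (w : V d),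
  R0 ≤ R → OKA Γ K k B G Φ → p ∈ WP G r0 2 R → |t| ≤ 1 →
    ‖bt G Φ ch ζ1 R 1 (Complex.I • 1) p t w‖ + ‖fderiv ℝ (bt G Φ ch ζ1 R 1 (Complex.I • 1) p t) w‖ + ‖fderiv ℝ (fderiv ℝ (bt G Φ ch ζ1 R 1 (Complex.I • 1) p t)) w‖ ≤ R ^ (4 : ℝ) ∧ (bt G Φ ch ζ1 R 1 (Complex.I • 1) p t w ≠ 0 → ‖w‖ ≤ C)

/-! ## Transport -/

/-- **Row EEDB** (the derivative in `t`; short; adaptation of helper32/VD/EED.lean; from ABMR, ACNF, AMVI). As EED, but without Green's formula: `∂_t conj psi = i conj (Hop psi) + i conj Er`, and `∫ u conj (Hop psi) dmv = ∫ q conj psi dmv + eB` by the definition of `eB`. In `EED_main` delete `hgr`; `u` only continuous; the continuity of `eB`: the same lemma `hcont` with the functions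
`Hop G R (bt .. p t) z` (continuous: ABMR) and `bt`; supports: `Hop G R ψ` vanishes outside of `tsupport ψ` (`EED_lapz`; importable). -/
def EEDB_stmt : Prop := ∀ (d : ℕ) (Γ : Type) [Group Γ] [MulAction Γ (V d)] (K : Set (V d)) (k : ℝ) (B : ℕ → ℕ → ℝ) (r0 : ℝ) (χ : V d → ℝ), FdK Γ K → PU Γ r0 χ → ∃ C : ℝ, 1 ≤ C ∧ ∀ (ch : ℝ → ℝ) (A : Par), CH ch → Adm C A → ∃ R0 : ℝ, 1 ≤ R0 ∧
  ∀ (R : ℝ) (G : V d → V d →L[ℝ] V d) (Φ : ℝ → P d → P d) (u q : V d → ℂ), R0 ≤ R → OKA Γ K k B G Φ → Continuous u → Continuous q →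
    (∀ p ∈ WP G r0 2 R, ∀ t ∈ Icc (0 : ℝ) 1, HasDerivAt (fun s => aF G r0 R (fP G Φ χ ch A.z A.z1 R s) u (y1 Γ p))
      (Complex.I * aF G r0 R (fP G Φ χ ch A.z A.z1 R t) q (y1 Γ p) + Complex.I * aF G r0 R (fE G Φ χ ch A.z A.z1 R t) u (y1 Γ p) + Complex.I * eB G Φ χ ch A.z A.z1 R u q t p) t) ∧
    (∀ v : V d → ℂ, Continuous v → ContinuousOn (fun x : P d × ℝ => aF G r0 R (fP G Φ χ ch A.z A.z1 R x.2) v (y1 Γ x.1)) (WP G r0 2 R ×ˢ Icc 0 1)) ∧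
    ContinuousOn (fun x : P d × ℝ => aF G r0 R (fE G Φ χ ch A.z A.z1 R x.2) u (y1 Γ x.1)) (WP G r0 2 R ×ˢ Icc 0 1) ∧
    ContinuousOn (fun x : P d × ℝ => eB G Φ χ ch A.z A.z1 R u q x.2 x.1) (WP G r0 2 R ×ˢ Icc 0 1)

/-- **Row EEBB** (THE ERROR IS TINY; medium; from LPA, LPB, BCB, UBL, EHG, EHC, EYP, AVOL, ABRD, ABMR, AMVI). `ψ = bt .. p t`, `q = Hop G' R u`, `Dψ = dens G Hop G ψ - dens G' Hop G' ψ`. Green's formula for `G'` (lemma `EED_green` of helper32/VD/EED.lean, importable, with the metric `G'`): `∫ dens G' (u conj (Hop G' ψ)) = ∫ dens G' (q conj ψ)`. So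
`∫ dens G (u conj (Hop G ψ) - q conj ψ) = ∫ u conj (Dψ) + ∫ (dens G' - dens G) q conj ψ` (continuous functions of compact support: the ball of radius `C` of BCB). `‖Dψ‖ ≤ C R R^(-L) R^4` (LPB, BCB), `|dens G' - dens G| ≤ C R^(-L)` (LPA), `‖q‖ ≤ 2 R^(1/100) ‖u‖` (`Ap.bd`), `∫_ball ‖u‖ ≤ C sqrt (nn u)` (UBL), `cR ≤ R^(3d/4)` (ABRD), `χ ≤ 1` (PU):
`‖eB‖ ≤ C R^(3d/4 + 5 - L) sqrt (nn u)`, `L = 10 d + 100`; the volume of `WP G r0 2 R` is at most a constant (AVOL second part with `y = (1, 0)`, `1 ∈ SG`, and EYP third part with `g = 1`). -/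
def EEBB_stmt : Prop := ∀ (d : ℕ) (Γ : Type) [Group Γ] [MulAction Γ (V d)] (K : Set (V d)) (k : ℝ) (B : ℕ → ℕ → ℝ) (b : ℕ → ℝ) (r0 : ℝ) (χ : V d → ℝ), FdK Γ K → PU Γ r0 χ → ∃ C : ℝ, 1 ≤ C ∧ ∀ (ch : ℝ → ℝ) (A : Par), CH ch → Adm C A → ∃ R0 : ℝ, 1 ≤ R0 ∧
  ∀ (R t : ℝ) (F : Set (V d)) (G G' : V d → V d →L[ℝ] V d) (Φ : ℝ → P d → P d) (f : V d → ℝ) (u : V d → ℂ), R0 ≤ R → FD Γ F → OKA Γ K k B G Φ → Nr Γ K k B b R G G' → Ap Γ B G' F R f u → 0 ≤ t → t ≤ 1 →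
    ∫⁻ p in WP G r0 2 R, ‖eB G Φ χ ch A.z A.z1 R u (Hop G' R u) t p‖ₑ ^ 2 ≤ ENNReal.ofReal (R ^ (-1 : ℝ) * nn G F u)

/-- **Row EETB** (TRANSPORT; short-medium; adaptation of helper43/VD/EET.lean (its lemmas `EET_..` can be imported); from VDA.EAX, EEDB, EEBB, EEF, EYP, ASAD, AFBD, AFMD, AFRD, AMVI). `obtain ⟨G', hNr, hAp⟩ := h`; `Hop G R u` is replaced by `q = Hop G' R u` (`hAp.hh`, `hAp.res`: pointwise, so `EET_nn` for `G`), `r` gets the additional term `eB .. u q s p`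
(continuous: EEDB 4th part; bound: EEBB, `R^(-1) ≤ Q = R^(-2/101)`), one more `EET_s2`: the factor `46` becomes e.g. `100`. -/
def EETB_stmt : Prop := ∀ (d : ℕ) (Γ : Type) [Group Γ] [MulAction Γ (V d)] (K : Set (V d)) (k : ℝ) (B : ℕ → ℕ → ℝ) (b : ℕ → ℝ) (r0 : ℝ) (χ : V d → ℝ), FdK Γ K → PU Γ r0 χ → ∃ C : ℝ, 1 ≤ C ∧ ∀ (ch : ℝ → ℝ) (A : Par), CH ch → Adm C A → ∃ R0 : ℝ, 1 ≤ R0 ∧
  ∀ (R t : ℝ) (F : Set (V d)) (G : V d → V d →L[ℝ] V d) (Φ : ℝ → P d → P d) (f : V d → ℝ) (u : V d → ℂ), R0 ≤ R → FD Γ F → OKA Γ K k B G Φ → ApB Γ K k B b G F R f u → 0 ≤ t → t ≤ 1 →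
    nP G r0 {(1 : Γ)} 2 R (fun y => aF G r0 R (fP G Φ χ ch A.z A.z1 R t) u y - Complex.exp (((thP Φ f R t y.2 : ℝ) : ℂ) * Complex.I) * QF G χ ch A.z R u y) ≤ R ^ (-(1 / 60) : ℝ) * nn G F u

/-- **Row EE2B** (THE ENERGY WINDOW; short-medium; adaptation of helper66/VD/EE2.lean (its lemmas `EE2_..` can be imported); from RHB, QRB, GWB, AMVI, ADMD, AQSD, AISD, AQAD, AELD). Only the bound `hc` (mass of `QF G u` outside of `GW G c`, `c ≥ 1`) changes: `QF G u = QF G' u + QF G ((1 - ρ) u)` (QRB and linearity of `QF G`: the integrands are continuous with compact support,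
see the last part of helper32/VD/EG0.lean, lemma `EG0_int`). Mass of `QF G' u` outside `GW G c ⊇ GW G 1 ⊇ GW G' (1/2)` (GWB): AELD for `G'` with `c = 1/2`, `E0 = 0`, `EE2_hop` and `EE2_num` for `G'`: `≤ 17 R^(-49/100) nn G' u ≤ 34 R^(-49/100) nn G u` (RHB). Total mass of `QF G ((1 - ρ) u)`: AISD for `G` (`FH` for `(1 - ρ) u`: RHB (2), (4)):
`≤ 2 nn G ((1 - ρ) u) ≤ 2 R^(-1) nn G u`. `|a + b|² ≤ 2 |a|² + 2 |b|²`: in total `≤ 72 R^(-49/100) nn G u`. The rest as in EE2 with larger constants. -/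
def EE2B_stmt : Prop := ∀ (d : ℕ) (Γ : Type) [Group Γ] [MulAction Γ (V d)] (K : Set (V d)) (k : ℝ) (B : ℕ → ℕ → ℝ) (b : ℕ → ℝ) (r0 : ℝ) (χ : V d → ℝ), FdK Γ K → PU Γ r0 χ → ∃ C : ℝ, 1 ≤ C ∧ ∀ (ch : ℝ → ℝ) (A : Par), CH ch → Adm C A → ∃ R0 : ℝ, 1 ≤ R0 ∧
  ∀ (R : ℝ) (F : Set (V d)) (G : V d → V d →L[ℝ] V d) (f : V d → ℝ) (u : V d → ℂ), R0 ≤ R → FD Γ F → Cls Γ K k B G → ApB Γ K k B b G F R f u →
    FP (⊤ : Subgroup Γ) {(1 : Γ)} (QF G χ ch A.z R u) ∧ nn G F (fun z => Qs G r0 χ ch A.z R (QF (Γ := Γ) G χ ch A.z R u) z - u z) ≤ R ^ (-(1 / 5) : ℝ) * nn G F u ∧ nP G r0 {(1 : Γ)} 2 R (QF G χ ch A.z R u) ≤ (1 + R ^ (-(1 / 5) : ℝ)) * nn G F u ∧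
    (1 - R ^ (-(1 / 5) : ℝ)) * nn G F u ≤ nP G r0 {(1 : Γ)} 1 R (QF G χ ch A.z R u) ∧ nP G r0 {(1 : Γ)} 1 R (QF G χ ch A.z R u) ≤ nP G r0 {(1 : Γ)} 2 R (QF G χ ch A.z R u)

/-! ## Copies (helper55): `Ap` becomes `ApB` -/

/-- **Row EO1B** (copy of helper66/VD/EO1.lean). -/
def EO1B_stmt : Prop := ∀ (d : ℕ) (Γ : Type) [Group Γ] [MulAction Γ (V d)] (K : Set (V d)) (k : ℝ) (B : ℕ → ℕ → ℝ) (b : ℕ → ℝ) (r0 : ℝ) (χ : V d → ℝ), FdK Γ K → PU Γ r0 χ → ∃ C : ℝ, 1 ≤ C ∧ ∀ (ch : ℝ → ℝ) (A : Par), CH ch → Adm C A → ∃ R0 : ℝ, 1 ≤ R0 ∧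
  ∀ (R : ℝ) (F : Set (V d)) (G : V d → V d →L[ℝ] V d) (Φ : ℝ → P d → P d) (f : V d → ℝ) (u : V d → ℂ), R0 ≤ R → FD Γ F → OKA Γ K k B G Φ → ApB Γ K k B b G F R f u →
    nP G r0 {(1 : Γ)} 2 R (fun y => Op (us G Φ r0 χ ch A R) (QF G χ ch A.z R u) y - Complex.exp (((thP Φ f R 1 y.2 : ℝ) : ℂ) * Complex.I) * QF G χ ch A.z R u y) ≤ R ^ (-(1 / 70) : ℝ) * nn G F u

/-- **Row EESB** (copy of helper49/VD/EES.lean). -/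
def EESB_stmt : Prop := ∀ (d : ℕ) (Γ : Type) [Group Γ] [MulAction Γ (V d)] (K : Set (V d)) (k : ℝ) (B : ℕ → ℕ → ℝ) (b : ℕ → ℝ) (r0 : ℝ) (χ : V d → ℝ), FdK Γ K → PU Γ r0 χ → ∃ C : ℝ, 1 ≤ C ∧ ∀ (ch : ℝ → ℝ) (A : Par), CH ch → Adm C A → ∃ (N : ℕ) (R0 : ℝ), 1 ≤ R0 ∧
  ∀ (R s L : ℝ) (F : Set (V d)) (G : V d → V d →L[ℝ] V d) (Φ : ℝ → P d → P d) (f h : V d → ℝ) (u : V d → ℂ), R0 ≤ R → FD Γ F → OKA Γ K k B G Φ → ApB Γ K k B b G F R f u → Inv Γ h → ContDiff ℝ ∞ h → (∀ x, 0 ≤ h x ∧ h x ≤ 1) → 0 ≤ L →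
    (∀ n ≤ N, ∀ x : V d, ‖x‖ ≤ N → ‖iteratedFDeriv ℝ n h x‖ ≤ L) → 0 ≤ s → s ≤ 1 →
      |(∫ y in DT d {(1 : Γ)} ∩ GW Γ G r0 2 R, h (Φ s y.2).1 * ‖QF G χ ch A.z R u y‖ ^ 2 ∂mY Γ d) - ∫ z in F, h z * ‖u z‖ ^ 2 ∂mv G| ≤ (1 + L) * R ^ (-(1 / 250) : ℝ) * nn G F u

/-- **Row EEAB** (copy of helper23/VD/EEA.lean). -/
def EEAB_stmt : Prop := ∀ (d : ℕ) (Γ : Type) [Group Γ] [MulAction Γ (V d)] (K : Set (V d)) (k : ℝ) (B : ℕ → ℕ → ℝ) (b : ℕ → ℝ) (r0 : ℝ) (χ : V d → ℝ), FdK Γ K → PU Γ r0 χ → ∃ C : ℝ, 1 ≤ C ∧ ∀ (ch : ℝ → ℝ) (A : Par) (h : V d → ℝ), CH ch → Adm C A → Inv Γ h → ContDiff ℝ ∞ h → (∀ x, 0 ≤ h x ∧ h x ≤ 1) →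
  ∃ R0 : ℝ, 1 ≤ R0 ∧ ∀ (R : ℝ) (F : Set (V d)) (G : V d → V d →L[ℝ] V d) (Φ : ℝ → P d → P d) (f : V d → ℝ) (u : V d → ℂ), R0 ≤ R → FD Γ F → OKA Γ K k B G Φ → ApB Γ K k B b G F R f u →
    (∀ p : P d, avP Φ h (A.tu R) p = ((A.n R + 1 : ℕ) : ℝ)⁻¹ * ∑ j ∈ Finset.range (A.n R + 1), gE Φ h j p) ∧ (∀ j : ℕ, VDA.FR Γ (fun y : YS Γ d => gE Φ h j y.2)) ∧
    (∀ (j : ℕ) (y y' : YS Γ d), j < A.n R + 1 → St G Φ r0 (A.r R) R y y' → |gE Φ h (j + 1) y.2 - gE Φ h j y'.2| ≤ R ^ (-(1 / 4) : ℝ)) ∧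
    |(∫ y in DT d {(1 : Γ)} ∩ GW Γ G r0 2 R, gE Φ h 0 y.2 * ‖QF G χ ch A.z R u y‖ ^ 2 ∂mY Γ d) - ∫ z in F, h z * ‖u z‖ ^ 2 ∂mv G| ≤ R ^ (-(1 / 300) : ℝ) * nn G F u

/-- **Row EF3B** (copy of helper38/VD/EF3.lean). -/
def EF3B_stmt : Prop := ∀ (d : ℕ) (Γ : Type) [Group Γ] [MulAction Γ (V d)] (K : Set (V d)) (k : ℝ) (B : ℕ → ℕ → ℝ) (b : ℕ → ℝ) (r0 : ℝ) (χ : V d → ℝ), FdK Γ K → PU Γ r0 χ → ∃ C : ℝ, 1 ≤ C ∧ ∀ (ch : ℝ → ℝ) (A : Par), CH ch → Adm C A → ∃ R0 : ℝ, 1 ≤ R0 ∧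
  ∀ (R : ℝ) (F : Set (V d)) (G : V d → V d →L[ℝ] V d) (Φ : ℝ → P d → P d) (f : V d → ℝ) (u : V d → ℂ), R0 ≤ R → FD Γ F → OKA Γ K k B G Φ → ApB Γ K k B b G F R f u →
    ∫⁻ y in DT d {(1 : Γ)}, ‖QF G χ ch A.z R u y‖ₑ ^ 2 ∂mW Γ G r0 R ≤ ENNReal.ofReal ((1 + R ^ (-(1 / 5) : ℝ)) * nn G F u) ∧
    ENNReal.ofReal ((1 - R ^ (-(1 / 5) : ℝ)) * nn G F u) ≤ ∫⁻ y in DT d {(1 : Γ)} ∩ GW Γ G r0 1 R, ‖QF G χ ch A.z R u y‖ₑ ^ 2 ∂mW Γ G r0 R ∧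
    ∀ T : Lp ℂ 2 ((mW Γ G r0 R).restrict (DT d {(1 : Γ)})) →L[ℂ] Lp ℂ 2 ((mW Γ G r0 R).restrict (DT d {(1 : Γ)})), IsOp ((mW Γ G r0 R).restrict (DT d {(1 : Γ)})) (perZ Γ (KB G Φ r0 χ ch A R f)) T →
      ∀ Ψ : Lp ℂ 2 ((mW Γ G r0 R).restrict (DT d {(1 : Γ)})), (Ψ : YS Γ d → ℂ) =ᵐ[(mW Γ G r0 R).restrict (DT d {(1 : Γ)})] QF G χ ch A.z R u → ‖T Ψ - Ψ‖ ^ 2 ≤ R ^ (-(1 / 100) : ℝ) * nn G F u

/-- **Row EF8B** (copy of helper98/VD/EF8.lean). -/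
def EF8B_stmt : Prop := ∀ (d : ℕ) (Γ : Type) [Group Γ] [MulAction Γ (V d)] (K : Set (V d)) (k : ℝ) (B : ℕ → ℕ → ℝ) (b : ℕ → ℝ) (r0 : ℝ) (χ : V d → ℝ), FdK Γ K → PU Γ r0 χ → ∃ C : ℝ, 1 ≤ C ∧ ∀ (ch : ℝ → ℝ) (A : Par) (h : V d → ℝ), CH ch → Adm C A → Inv Γ h → ContDiff ℝ ∞ h → (∀ x, 0 ≤ h x ∧ h x ≤ 1) →
  ∃ R0 : ℝ, 1 ≤ R0 ∧ ∀ (R : ℝ) (F : Set (V d)) (G : V d → V d →L[ℝ] V d) (Φ : ℝ → P d → P d) (f : V d → ℝ) (u : V d → ℂ), R0 ≤ R → FD Γ F → OKA Γ K k B G Φ → ApB Γ K k B b G F R f u →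
    |(∫ y in DT d {(1 : Γ)}, avP Φ h (A.tu R) y.2 * ‖QF G χ ch A.z R u y‖ ^ 2 ∂mW Γ G r0 R) - ∫ z in F, h z * ‖u z‖ ^ 2 ∂mv G| ≤ R ^ (-(1 / 400) : ℝ) * nn G F u

/-- **Row EG0B** (from `φ` to `u`; short; copy of helper32/VD/EG0.lean, whose lemmas can be imported: `EG0_egt` for the metric `G'`, `EG0_cls`; from AQAD, AQSD, AMVI). `Nr Γ K k B'' b R G G'` from `EgB.nr` and the first part for `G'`. -/
def EG0B_stmt : Prop := ∀ (d : ℕ) (Γ : Type) [Group Γ] [MulAction Γ (V d)] (K F0 : Set (V d)) (r0 : ℝ) (χ : V d → ℝ) (ch : ℝ → ℝ) (k : ℝ) (B B' : ℕ → ℕ → ℝ) (b : ℕ → ℝ), 2 ≤ d → FdK Γ K → FDX Γ K F0 → PU Γ r0 χ → CH ch → FD Γ F0 ∧ ∃ B'' : ℕ → ℕ → ℝ, (∀ G : V d → V d →L[ℝ] V d, Cls Γ K k B G → Cls Γ K k B'' G) ∧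
  ∀ ζ : ℝ, 0 < ζ → ζ ≤ 1 / 8 → ∃ R0 : ℝ, 1 ≤ R0 ∧ ∀ (R : ℝ) (G G' : V d → V d →L[ℝ] V d) (f f' : V d → ℝ) (μ : ℝ) (φ : V d → ℂ), R0 ≤ R → Cls Γ K k B G → EgB Γ K k B B' b R G G' f f' μ φ →
    Nr Γ K k B'' b R G G' ∧ EgT Γ B'' G' R f f' μ φ ∧ FH (⊤ : Subgroup Γ) F0 φ ∧ FH (⊤ : Subgroup Γ) F0 (uE f' φ) ∧ (∀ z, ‖uE f' φ z - φ z‖ ≤ R ^ (-(1 / 2) : ℝ) * ‖φ z‖) ∧ nn G F0 (uE f' φ) ≤ 2 * nn G F0 φ ∧ nn G F0 φ ≤ 2 * nn G F0 (uE f' φ) ∧ nn G F0 (fun z => uE f' φ z - φ z) ≤ R ^ (-1 : ℝ) * nn G F0 φ ∧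
    FP (⊤ : Subgroup Γ) {(1 : Γ)} (QF G χ ch ζ R φ) ∧ FP (⊤ : Subgroup Γ) {(1 : Γ)} (QF G χ ch ζ R (uE f' φ)) ∧ nP G r0 {(1 : Γ)} 2 R (fun y => QF G χ ch ζ R (uE f' φ) y - QF G χ ch ζ R φ y) ≤ 2 * R ^ (-1 : ℝ) * nn G F0 φ ∧
    nP G r0 {(1 : Γ)} 2 R (QF G χ ch ζ R φ) ≤ (1 + R ^ (-(1 / 4) : ℝ)) * nn G F0 φ

end

end Pool.Agent.VDI
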